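import Pool.Agent.W667.FML.TAdd
import Pool.Agent.W275.FML.TMul
import Pool.Agent.H901R3.MS.P_PL

/-!
# Torsion points over `ℚ` are integral at the odd primes

`y² = x³ + a x + b` with integers `a`, `b`.
-/

set_option autoImplicit false

namespace Pool.Agent.N373.P24

open WeierstrassCurve Pool.Agent.H901R3.MS Pool.Agent.W275.FML

variable {p : ℕ} [hp : Fact p.Prime]

lemma den_of_mem (v : Place ℚ (ZMod p)) {z : ℚ} (hz : z ∈ v.A) : ¬ p ∣ z.den := by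
  intro hd
  have h1 : v.r (z * (z.den : ℚ)) = 0 := by
    rw [v.r_mul hz (v.nat_mem _), v.r_nat, (ZMod.natCast_eq_zero_iff _ _).2 hd, mul_zero]
  rw [Rat.mul_den_eq_num, v.r_int, ZMod.intCast_zmod_eq_zero_iff_dvd] at h1
  have h2 : p ∣ z.num.natAbs := Int.natCast_dvd.1 h1
  have h3 := z.reduced
  have h4 := Nat.dvd_gcd h2 hd
  rw [h3] at h4
  exact hp.out.one_lt.ne' (Nat.dvd_one.1 h4)

lemma mem_of_den (v : Place ℚ (ZMod p)) {z : ℚ} (hz : ¬ p ∣ z.den) : z ∈ v.A := by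
  have h1 : v.r ((z.den : ℕ) : ℚ) ≠ 0 := by
    rw [v.r_nat, Ne, ZMod.natCast_eq_zero_iff]
    exact hz
  rw [← Rat.num_div_den z]
  exact v.div_mem (v.int_mem _) h1

lemma div_mem_of_r (v : Place ℚ (ZMod p)) {z : ℚ} (hz : z ∈ v.A) (h0 : v.r z = 0) :
    z / (p : ℚ) ∈ v.A := by
  have hd := den_of_mem v hz
  have h1 : v.r ((z.den : ℕ) : ℚ) ≠ 0 := by
    rw [v.r_nat, Ne, ZMod.natCast_eq_zero_iff]
    exact hd
  have h2 : v.r (z * (z.den : ℚ)) = 0 := by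
    rw [v.r_mul hz (v.nat_mem _), h0, zero_mul]
  rw [Rat.mul_den_eq_num, v.r_int, ZMod.intCast_zmod_eq_zero_iff_dvd] at h2
  obtain ⟨c, hc⟩ := h2
  have hp0 : (p : ℚ) ≠ 0 := by exact_mod_cast hp.out.ne_zero
  have e : z / (p : ℚ) = (c : ℚ) / (z.den : ℚ) := by
    have h3 : (z.num : ℚ) = (p : ℚ) * c := by rw [hc]; push_cast; ring
    have h4 : z = (z.num : ℚ) / z.den := (Rat.num_div_den z).symm
    have hd0 : (z.den : ℚ) ≠ 0 := by exact_mod_cast z.den_nz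
    rw [div_eq_div_iff hp0 hd0, ← Rat.mul_den_eq_num] at *
    linear_combination h3
  rw [e]
  exact v.div_mem (v.int_mem _) h1

/-- **A nonzero torsion point over `ℚ` is not in the kernel of the reduction modulo `p > 2`.** -/
theorem not_E1 (v : Place ℚ (ZMod p)) (hp2 : p ≠ 2) (a b : ℤ) (P : Pt (a : ℚ) (b : ℚ))
    (hP : P ≠ 0) (hf : IsOfFinAddOrder P) : ¬ E1 v P := by
  intro h1
  have h2 : (2 : ZMod p) ≠ 0 := by
    intro h
    have h' : ((2 : ℕ) : ZMod p) = 0 := by exact_mod_cast h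
    rw [ZMod.natCast_eq_zero_iff] at h'
    exact hp2 ((Nat.prime_dvd_prime_iff_eq hp.out Nat.prime_two).1 h')
  obtain ⟨ta, -⟩ := Pool.Agent.W667.FML.TAdd.main ℚ (ZMod p) v a b h2
  obtain ⟨N, hN⟩ : ∃ N, N = addOrderOf P := ⟨_, rfl⟩
  have hN0 : 0 < N := by rw [hN]; exact hf.addOrderOf_pos
  have hN1 : N ≠ 1 := by
    intro h
    rw [h] at hN
    exact hP (AddMonoid.addOrderOf_eq_one_iff.1 hN.symm)
  obtain ⟨l, hl, hlN⟩ := Nat.exists_prime_and_dvd hN1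
  obtain ⟨c, hc⟩ := hlN
  have hc0 : 0 < c := Nat.pos_of_ne_zero (by rintro rfl; omega)
  have hQ0 : c • P ≠ 0 := by
    intro h
    have h3 := addOrderOf_dvd_of_nsmul_eq_zero h
    rw [← hN, hc] at h3
    have h4 := Nat.le_of_dvd hc0 h3
    have := hl.two_le
    nlinarith
  have hQl : l • (c • P) = 0 := by
    rw [← mul_nsmul', ← hc, hN]
    exact addOrderOf_nsmul_eq_zero P
  obtain ⟨k1, -⟩ := TMul.main Pool.Agent.W667.FML.TAdd.main ℚ (ZMod p) v a b h2 P h1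
  have hQE := (k1 c).1
  obtain ⟨-, k2⟩ := TMul.main Pool.Agent.W667.FML.TAdd.main ℚ (ZMod p) v a b h2 (c • P) hQE
  have k3 := k2 l (by exact_mod_cast hl.ne_zero) hQ0 hQl
  obtain ⟨tA, tr, -⟩ := ta (c • P) hQE
  apply k3
  by_cases hlp : l = p
  · rw [hlp]
    exact div_mem_of_r v tA tr
  · refine v.div_mem tA ?_
    rw [v.r_nat, Ne, ZMod.natCast_eq_zero_iff]
    intro h
    exact hlp ((Nat.prime_dvd_prime_iff_eq hp.out hl).1 h).symm

/-- **Integrality.** -/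
theorem torsion_int (p : ℕ) [Fact p.Prime] (hp2 : p ≠ 2) (a b : ℤ) {x y : ℚ}
    (h : (CV (a : ℚ) b).toAffine.Nonsingular x y)
    (hf : IsOfFinAddOrder (Affine.Point.some x y h : Pt (a : ℚ) (b : ℚ))) : ¬ p ∣ x.den := by
  obtain ⟨v⟩ := t_PL p
  have h1 := not_E1 v hp2 a b _ (Affine.Point.some_ne_zero h) hf
  unfold E1 at h1
  push Not at h1
  obtain ⟨x', y', h', he, hx'⟩ := h1
  injection he with e1 e2
  rw [e1]
  exact den_of_mem v hx'

end Pool.Agent.N373.P24
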