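import Pool.Agent.N373.P24.Tors

/-!
# The facts about `W_n = ⟨0, -2 n, 0, -3 n², 0⟩`, `n % 24 = 11` squarefree, in elementary forms

The definitions are word for word those of `Results/MP_4a9ea6_nt/TwoPartTwistsX14.lean`.
-/

set_option autoImplicit false
set_option linter.style.haveILetI false

namespace Pool.Agent.N373.P24.Forms

open WeierstrassCurve

open scoped Classical

/-- The curve given by the equation of `W` over the ring `R`. -/
abbrev base (W : WeierstrassCurve ℤ) (R : Type) [CommRing R] : WeierstrassCurve R :=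
  W.map (Int.castRingHom R)

/-- `W` is a global minimal equation: `Δ ≠ 0` and `|Δ|` is minimal among the integral equations of the
same curve over `ℚ`. -/
def Minimal (W : WeierstrassCurve ℤ) : Prop :=
  W.Δ ≠ 0 ∧ ∀ (W' : WeierstrassCurve ℤ) (C : VariableChange ℚ), C • base W ℚ = base W' ℚ →
    |W.Δ| ≤ |W'.Δ|

/-- The point `P` of `W` over `ℚ_p` reduces to a singular point of the curve modulo `p`: the coordinates
are integral and both partial derivatives of `y² + a₁ x y + a₃ y - x³ - a₂ x² - a₄ x - a₆` are in the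
maximal ideal. -/
def SingularReduction (W : WeierstrassCurve ℤ) (p : ℕ) [Fact p.Prime]
    (P : (base W ℚ_[p]).toAffine.Point) : Prop :=
  ∃ x y h, P = Affine.Point.some x y h ∧ ‖x‖ ≤ 1 ∧ ‖y‖ ≤ 1 ∧
    ‖W.a₁ * y - (3 * x ^ 2 + 2 * W.a₂ * x + W.a₄)‖ < 1 ∧ ‖2 * y + W.a₁ * x + W.a₃‖ < 1

/-- `c p` is the Tamagawa number `[W(ℚ_p) : W⁰(ℚ_p)]` for all primes `p`, where `W⁰(ℚ_p)` is the subgroup
of the points which do not have singular reduction; it is `1` if `p` does not divide `Δ`. -/
def IsTamagawa (W : WeierstrassCurve ℤ) (c : ℕ → ℕ) : Prop :=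
  ∀ (p : ℕ) [Fact p.Prime], (∃ H : AddSubgroup (base W ℚ_[p]).toAffine.Point,
    (∀ P, P ∈ H ↔ ¬ SingularReduction W p P) ∧ H.index = c p) ∧ (¬ (p : ℤ) ∣ W.Δ → c p = 1)

/-- The product of the Tamagawa numbers. -/
noncomputable def Tam (W : WeierstrassCurve ℤ) (c : ℕ → ℕ) : ℕ := ∏ p ∈ W.Δ.natAbs.primeFactors, c p

/-- The order of the torsion subgroup of `W(ℚ)`. -/
noncomputable def torsOrder (W : WeierstrassCurve ℤ) : ℕ :=
  Nat.card (AddCommGroup.torsion (base W ℚ).toAffine.Point)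

/-- The twist of `X_0(24)` by `-n`: `y² = x³ - 2 n x² - 3 n² x`. -/
def W24 (n : ℕ) : WeierstrassCurve ℤ := ⟨0, -2 * n, 0, -3 * n ^ 2, 0⟩

theorem W24_eq (n : ℕ) : W24 n = Em (-(n : ℤ)) := by
  unfold W24 Em
  congr 1 <;> ring

/-- the Tamagawa numbers of `W24 n` -/
noncomputable def c24 (n p : ℕ) : ℕ := if p = 2 then 2 else if p = 3 then 2 else if p ∣ n then 4 else 1

variable {n : ℕ}

theorem minimal24 (hn : Squarefree n) (h24 : n % 24 = 11) : Minimal (W24 n) := by
  have hsm : Squarefree (-(n : ℤ)) := by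
    intro x hx
    rw [dvd_neg] at hx
    exact Int.squarefree_natCast.2 hn x hx
  rw [W24_eq]
  exact min_Em (m := -(n : ℤ)) (by omega) hsm

/-- the index of the subgroup of the points with non-singular reduction is `tam` -/
theorem isTam (W : WeierstrassCurve ℤ) (c : ℕ → ℕ)
    (h : ∀ (p : ℕ) [Fact p.Prime], Pool.Agent.Y700.tam W p = c p) : IsTamagawa W c := by
  intro p hp
  refine ⟨⟨Pool.Agent.Y700.E0 W p, fun P => ?_, by rw [← h p]; rfl⟩, fun h1 => ?_⟩
  · rw [Pool.Agent.Y809.BSD14.t_E0 W p P]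
    constructor
    · rintro h ⟨x, y, h1, rfl, h2⟩
      exact h x y h1 rfl h2
    · intro h x y h1 h2 h3
      exact h ⟨x, y, h1, h2, h3⟩
  · rw [← h p]
    exact Pool.Agent.Y809.BSD14.t_TGOOD W p h1

theorem tamagawa24 (hn : Squarefree n) (h24 : n % 24 = 11) : IsTamagawa (W24 n) (c24 n) := by
  have hsm : Squarefree (-(n : ℤ)) := by
    intro x hx
    rw [dvd_neg] at hx
    exact Int.squarefree_natCast.2 hn x hx
  refine isTam _ _ fun p hp => ?_
  rw [W24_eq]
  unfold c24
  split_ifs with h2 h3 h4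
  · subst h2
    exact tam_two (by omega)
  · subst h3
    exact tam_three (by omega)
  · exact tam_ram h2 h3 hsm (by rw [dvd_neg]; exact_mod_cast h4)
  · refine tam_good (fun h6 => ?_) (by rw [dvd_neg]; exact_mod_cast h4)
    have h7 : p ∣ 2 * 3 := h6
    rcases (Nat.Prime.dvd_mul hp.out).1 h7 with h8 | h8
    · exact h2 ((Nat.prime_dvd_prime_iff_eq hp.out Nat.prime_two).1 h8)
    · exact h3 ((Nat.prime_dvd_prime_iff_eq hp.out Nat.prime_three).1 h8)

theorem tam24 (hn : Squarefree n) (h24 : n % 24 = 11) :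
    Tam (W24 n) (c24 n) = 4 ^ (n.primeFactors.card + 1) := by
  unfold Tam
  rw [W24_eq, pf_Δ hn.ne_zero, Finset.prod_insert, Finset.prod_insert]
  · have ep : ∀ p ∈ n.primeFactors, c24 n p = 4 := by
      intro p hp
      obtain ⟨h1, h4, -⟩ := Nat.mem_primeFactors.1 hp
      unfold c24
      rw [if_neg (by rintro rfl; omega), if_neg (by rintro rfl; omega), if_pos h4]
    rw [Finset.prod_congr rfl ep, Finset.prod_const, pow_succ]
    have e2 : c24 n 2 = 2 := by unfold c24; rw [if_pos rfl]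
    have e3 : c24 n 3 = 2 := by unfold c24; rw [if_neg (by norm_num), if_pos rfl]
    rw [e2, e3]
    ring
  · intro hh
    have := Nat.dvd_of_mem_primeFactors hh
    omega
  · intro hh
    rcases Finset.mem_insert.1 hh with hh | hh
    · norm_num at hh
    · have := Nat.dvd_of_mem_primeFactors hh
      omega

/-- Tamagawa numbers are determined by the curve. -/
theorem tam_unique {W : WeierstrassCurve ℤ} {c c' : ℕ → ℕ} (h : IsTamagawa W c)
    (h' : IsTamagawa W c') {p : ℕ} (hp : p.Prime) : c p = c' p := by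
  haveI := Fact.mk hp
  obtain ⟨⟨H, hH, hi⟩, -⟩ := h p
  obtain ⟨⟨H', hH', hi'⟩, -⟩ := h' p
  have : H = H' := by
    ext P
    rw [hH, hH']
  rw [← hi, ← hi', this]

theorem tors24' (hn : Squarefree n) (h24 : n % 24 = 11) :
    ∃ t : ℕ, Odd t ∧ torsOrder (W24 n) = 4 * t := by
  unfold torsOrder
  rw [W24_eq]
  exact tors24 hn h24

end Pool.Agent.N373.P24.Forms
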