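import Pool.Agent.N373.P24.Sel
import Pool.Agent.Y667.RZ.Sha

/-!
# The curves `E_m : y² = x (x - m) (x + 3 m)`: rank zero and `Ш[2^∞] = 0`
-/

set_option autoImplicit false

namespace Pool.Agent.N373.P24

open WeierstrassCurve
open Pool.Agent.TH841.SH (LocC SelG IsR)
open Pool.Agent.W262.SH (Sha)
open Pool.Agent.N875.X15 (RC NC)

open scoped Classical

/-- `y² = x (x - m) (x + 3 m)` -/
def Em (m : ℤ) : WeierstrassCurve ℤ := ⟨0, 2 * m, 0, -3 * m ^ 2, 0⟩

/-- the curve over `ℚ` -/
abbrev EQm (m : ℤ) : WeierstrassCurve ℚ := (Em m).map (Int.castRingHom ℚ)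

lemma isR (m : ℤ) : IsR (EQm m) ((0 : ℤ) : ℚ) ((m : ℤ) : ℚ) ((-3 * m : ℤ) : ℚ) := by
  refine ⟨?_, ?_, ?_, ?_, ?_⟩ <;> simp [Em] <;> ring

/-- a point of order two -/
lemma nonsing {m : ℤ} (hm : m ≠ 0) {x : ℚ} (hx : x * (x - m) * (x + 3 * m) = 0) :
    (EQm m).toAffine.Nonsingular x 0 := by
  have hm' : (m : ℚ) ≠ 0 := by exact_mod_cast hm
  rw [Affine.nonsingular_iff, Affine.equation_iff]
  simp only [Em, map_a₁, map_a₂, map_a₃, map_a₄, map_a₆, eq_intCast]
  push_cast
  constructor
  · linear_combination -hx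
  · left
    intro h
    rcases mul_eq_zero.1 hx with h1 | h1
    · rcases mul_eq_zero.1 h1 with h2 | h2
      · rw [h2] at h
        apply hm'
        have h3 : (m : ℚ) ^ 2 = 0 := by linear_combination (1 / 3 : ℚ) * h
        exact pow_eq_zero_iff (two_ne_zero) |>.1 h3
      · have h4 : x = m := by linear_combination h2
        rw [h4] at h
        apply hm'
        have h3 : (m : ℚ) ^ 2 = 0 := by linear_combination (-1 / 4 : ℚ) * h
        exact pow_eq_zero_iff (two_ne_zero) |>.1 h3
    · have h4 : x = -3 * m := by linear_combination h1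
      rw [h4] at h
      apply hm'
      have h3 : (m : ℚ) ^ 2 = 0 := by linear_combination (-1 / 12 : ℚ) * h
      exact pow_eq_zero_iff (two_ne_zero) |>.1 h3

/-- the points of order two -/
noncomputable def T4 {m : ℤ} (hm : m ≠ 0) : Finset (EQm m).toAffine.Point :=
  {0, .some 0 0 (nonsing hm (by simp)), .some m 0 (nonsing hm (by ring)),
    .some (-3 * m) 0 (nonsing hm (by ring))}

lemma T4_card {m : ℤ} (hm : m ≠ 0) : (T4 hm).card = 4 := by
  classical
  have hm' : (m : ℚ) ≠ 0 := by exact_mod_cast hm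
  unfold T4
  have e : ∀ (x y : ℚ) (h : (EQm m).toAffine.Nonsingular x 0)
      (h' : (EQm m).toAffine.Nonsingular y 0), (Affine.Point.some x 0 h : (EQm m).toAffine.Point) =
      .some y 0 h' → x = y := by
    intro x y h h' h1
    injection h1
  rw [Finset.card_insert_of_notMem, Finset.card_insert_of_notMem, Finset.card_insert_of_notMem,
    Finset.card_singleton]
  · rw [Finset.mem_singleton]
    intro h
    have h1 := e _ _ _ _ h
    apply hm'
    linear_combination (1 / 4 : ℚ) * h1
  · rw [Finset.mem_insert, Finset.mem_singleton]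
    rintro (h | h)
    · have h1 := e _ _ _ _ h
      apply hm'
      linear_combination -h1
    · have h1 := e _ _ _ _ h
      apply hm'
      linear_combination (1 / 3 : ℚ) * h1
  · rw [Finset.mem_insert, Finset.mem_insert, Finset.mem_singleton]
    rintro (h | h | h)
    · exact absurd h.symm (Affine.Point.some_ne_zero _)
    · exact absurd h.symm (Affine.Point.some_ne_zero _)
    · exact absurd h.symm (Affine.Point.some_ne_zero _)

lemma T4_two {m : ℤ} (hm : m ≠ 0) : ∀ g ∈ T4 hm, g + g = 0 := by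
  classical
  intro g hg
  unfold T4 at hg
  have key : ∀ (x : ℚ) (h : (EQm m).toAffine.Nonsingular x 0),
      (Affine.Point.some x 0 h : (EQm m).toAffine.Point) + .some x 0 h = 0 := by
    intro x h
    refine Affine.Point.add_of_Y_eq rfl ?_
    rw [Affine.negY]
    simp [Em]
  rw [Finset.mem_insert, Finset.mem_insert, Finset.mem_insert, Finset.mem_singleton] at hg
  rcases hg with rfl | rfl | rfl | rfl
  · exact add_zero 0
  · exact key _ _
  · exact key _ _
  · exact key _ _

/-- **Rank zero and `Ш[2^∞] = 0`.** -/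
theorem rank_sha {m : ℤ} (hm : Cls m) (hR : RC m) (hN : NC m) :
    Module.finrank ℤ (EQm m).toAffine.Point = 0 ∧
    ∀ (k : ℕ) (x : Pool.Agent.TH841.SH.D.Sha (EQm m)), (2 ^ k : ℕ) • x = 0 → x = 0 := by
  have hm0 : m ≠ 0 := hm.neg.ne
  obtain ⟨hfin, hcard⟩ := sel_finite hm hR hN
  obtain ⟨h1, h2⟩ := Pool.Agent.Y667.SHA.main4 (EQm m) 0 m (-3 * m) (isR m)
    (by omega) (by omega) (by omega) hfin (T4 hm0) (T4_card hm0).ge (T4_two hm0)
  have h3 := h2.trans hcard
  have hpos : 0 < Nat.card {x : Sha (EQm m) // x + x = 0} := by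
    have : Nonempty {x : Sha (EQm m) // x + x = 0} := ⟨⟨0, add_zero 0⟩⟩
    exact Nat.card_pos
  have h5 : 2 ^ (Module.finrank ℤ (EQm m).toAffine.Point + 2) ≤ 2 ^ 2 :=
    (Nat.le_mul_of_pos_right _ hpos).trans h3
  have h6 := (Nat.pow_le_pow_iff_right (by norm_num : 1 < 2)).1 h5
  have h7 : Module.finrank ℤ (EQm m).toAffine.Point = 0 := by omega
  refine ⟨h7, ?_⟩
  rw [h7] at h3
  have h8 : Nat.card {x : Sha (EQm m) // x + x = 0} ≤ 1 := by omega
  have h9 : ∀ x : Sha (EQm m), x + x = 0 → x = 0 := by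
    intro x hx
    have h10 : Subsingleton {x : Sha (EQm m) // x + x = 0} := by
      rw [← Finite.card_le_one_iff_subsingleton]
      exact h8
    have := h10.elim ⟨x, hx⟩ ⟨0, add_zero 0⟩
    exact congrArg Subtype.val this
  refine fun k => Pool.Agent.Y667.SHA.no_tor (fun x hx => ?_) k
  have h11 := h9 (Pool.Agent.TH841.SH.D.eSha (EQm m) x) (by rw [← map_add, hx, map_zero])
  rwa [EmbeddingLike.map_eq_zero_iff] at h11

end Pool.Agent.N373.P24
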