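import Pool.Agent.N373.P24.Tor4
import Pool.Agent.N373.P24.Rank
import Pool.Agent.N875.X15.Conv

/-!
# The converse: `E_m(ℚ)` finite and `Ш[2] = 0` imply the criterion
-/

set_option autoImplicit false

namespace Pool.Agent.N373.P24

open Pool.Agent.Z702 (LocI WZ coc S_COC S_LOT S_COB S_TRN)
open Pool.Agent.TH841.SH.D (shaCoc cob Coch Sha cob_zero)
open Pool.Agent.N875.X15 (RC NC sq_of_zmod sq_of_mod8 sq_cancel not_dvd_of_prime dvd_of_primes)

/-- points of the isogenous curve such that all the factors are squares -/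
def PtAll (K : Type) [Field K] (m : ℤ) : Prop := ∃ X r0 r1 r2 : K, X = r0 ^ 2 ∧
    X - m = r1 ^ 2 ∧ X - 9 * m = r2 ^ 2 ∧ r0 ≠ 0 ∧ r1 ≠ 0 ∧ r2 ≠ 0

lemma pt_aux {K : Type} [Field K] [CharZero K] {m : ℤ}
    (h : ∃ x y : K, y ≠ 0 ∧ y ^ 2 = (x - (0 : ℤ)) * (x - (m : ℤ)) * (x - (9 * m : ℤ)) ∧
      IsSquare (x - ((0 : ℤ) : K)) ∧ IsSquare (x - ((m : ℤ) : K)) ∧
      IsSquare (x - ((9 * m : ℤ) : K))) : PtAll K m := by
  obtain ⟨x, y, hy, hxy, ⟨r0, h0⟩, ⟨r1, h1⟩, ⟨r2, h2⟩⟩ := h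
  push_cast at h0 h1 h2 hxy
  have hne : (x - 0) * (x - (m : K)) * (x - 9 * m) ≠ 0 := by
    rw [← hxy]; exact pow_ne_zero 2 hy
  refine ⟨x, r0, r1, r2, ?_, ?_, ?_, ?_, ?_, ?_⟩
  · linear_combination h0
  · linear_combination h1
  · linear_combination h2
  · rintro rfl
    rw [h0] at hne
    simp at hne
  · rintro rfl
    rw [h1] at hne
    simp at hne
  · rintro rfl
    rw [h2] at hne
    simp at hne

lemma pt_all (p : ℕ) [hp : Fact p.Prime] (m : ℤ) : PtAll ℚ_[p] m :=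
  pt_aux (Pool.Agent.TH841.SH.pt_pad p 0 m (9 * m))

lemma pt_allR (m : ℤ) : PtAll ℝ m :=
  pt_aux (Pool.Agent.TH841.SH.pt_real 0 m (9 * m))

section loc

variable {K : Type} [Field K] [CharZero K] {m d : ℤ}

lemma locI_sq (hP : PtAll K m) (hd : d ≠ 0) (h : IsSquare (d : K)) :
    LocI K (5 * m) (4 * m ^ 2) d := by
  obtain ⟨X, r0, r1, r2, e0, e1, e2, n0, n1, n2⟩ := hP
  obtain ⟨e, he⟩ := h
  have hd' : (d : K) ≠ 0 := by exact_mod_cast hd
  have he0 : e ≠ 0 := by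
    rintro rfl
    apply hd'
    rw [he, mul_zero]
  refine ⟨X, r0 * r1 * r2, r0 / e, by rw [e0]; exact pow_ne_zero 2 n0, ?_, ?_⟩
  · push_cast
    rw [mul_pow, mul_pow, ← e0, ← e1, ← e2]
    ring
  · rw [e0, he]
    field_simp

lemma locI_m (hP : PtAll K m) (hm : m ≠ 0) (hd : d ≠ 0) (h : IsSquare ((d : K) * m)) :
    LocI K (5 * m) (4 * m ^ 2) d := by
  obtain ⟨X, r0, r1, r2, e0, e1, e2, n0, n1, n2⟩ := hP
  obtain ⟨e, he⟩ := h
  have hd' : (d : K) ≠ 0 := by exact_mod_cast hd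
  have hm' : (m : K) ≠ 0 := by exact_mod_cast hm
  have he0 : e ≠ 0 := by
    rintro rfl
    rw [mul_zero] at he
    exact mul_ne_zero hd' hm' he
  have hr1 : r1 ^ 2 ≠ 0 := pow_ne_zero 2 n1
  refine ⟨m * (r2 / r1) ^ 2, 8 * m ^ 2 * (r0 * r2) / r1 ^ 3, e * r2 / (d * r1),
    mul_ne_zero hm' (pow_ne_zero 2 (div_ne_zero n2 n1)), ?_, ?_⟩
  · push_cast
    have h2 : r2 ^ 2 = r0 ^ 2 - 9 * m := by rw [← e2, e0]
    have h3 : r1 ^ 2 = r0 ^ 2 - m := by rw [← e1, e0]
    have h4 : (8 * (m : K) ^ 2 * (r0 * r2) / r1 ^ 3) ^ 2 =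
        64 * (m : K) ^ 4 * r0 ^ 2 * r2 ^ 2 / (r1 ^ 2) ^ 3 := by
      field_simp
      ring
    have h5 : (m : K) * (r2 / r1) ^ 2 = m * r2 ^ 2 / r1 ^ 2 := by
      rw [div_pow]; ring
    rw [h4, h5, h2]
    have hr1' : r0 ^ 2 - (m : K) ≠ 0 := by rw [← h3]; exact hr1
    rw [h3]
    field_simp
    ring
  · have h1 : (m : K) * (r2 / r1) ^ 2 = (e * e) * r2 ^ 2 / (d * r1 ^ 2) := by
      rw [← he, div_pow]
      field_simp
    rw [h1]
    field_simp

end loc

/-- **All the local conditions**. -/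
theorem loc_all {m d : ℤ} (hm : Cls m) (hd4 : d % 4 = 1)
    (hsup : ∀ p : ℕ, p.Prime → (p : ℤ) ∣ d → (p : ℤ) ∣ m)
    (hloc : ∀ (p : ℕ) [Fact p.Prime], (p : ℤ) ∣ m →
      IsSquare (d : ℚ_[p]) ∨ IsSquare ((d : ℚ_[p]) * m)) :
    (∀ (p : ℕ) [Fact p.Prime], LocI ℚ_[p] (5 * m) (4 * m ^ 2) d) ∧
      LocI ℝ (5 * m) (4 * m ^ 2) d := by
  have hm0 : m ≠ 0 := hm.neg.ne
  have hd0 : d ≠ 0 := by rintro rfl; simp at hd4
  have hm8 := hm.m8
  have hm3 := hm.m3
  refine ⟨fun p hp => ?_, ?_⟩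
  · by_cases hp2 : p = 2
    · subst hp2
      have sq8 : ∀ n : ℤ, n % 8 = 1 → IsSquare (n : ℚ_[2]) := by
        intro n hn
        have h1 : PadicInt.toZModPow (p := 2) 3 (n : ℤ_[2]) = 1 := by
          rw [map_intCast]
          have h2 : ((8 : ℕ) : ℤ) ∣ n - 1 := by push_cast; omega
          have h3 := (ZMod.intCast_zmod_eq_zero_iff_dvd (n - 1) 8).2 h2
          push_cast at h3
          exact sub_eq_zero.1 h3
        have h2 := sq_of_mod8 _ h1
        simpa using h2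
      have h6 : d % 8 = 1 ∨ d % 8 = 5 := by omega
      rcases h6 with h6 | h6
      · exact locI_sq (pt_all 2 m) hd0 (sq8 _ h6)
      · refine locI_m (pt_all 2 m) hm0 hd0 ?_
        have := sq8 (d * m) (by rw [Int.mul_emod, h6, hm8]; norm_num)
        push_cast at this
        exact this
    · by_cases hpm : (p : ℤ) ∣ m
      · rcases hloc p hpm with h | h
        · exact locI_sq (pt_all p m) hd0 h
        · exact locI_m (pt_all p m) hm0 hd0 h
      · have hpd : ¬ (p : ℤ) ∣ d := fun h => hpm (hsup p hp.out h)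
        by_cases hsq : IsSquare ((d : ℤ) : ZMod p)
        · exact locI_sq (pt_all p m) hd0 (sq_of_zmod hp2 hpd hsq)
        · have hpr : Prime (p : ℤ) := Nat.prime_iff_prime_int.1 hp.out
          by_cases hp3 : p = 3
          · -- the special point `X = d`
            subst hp3
            have hpd' : ¬ (3 : ℤ) ∣ d := by exact_mod_cast hpd
            have h1 : d % 3 = 2 := by
              have h2 : d % 3 = 1 ∨ d % 3 = 2 := by omega
              rcases h2 with h2 | h2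
              · exfalso
                apply hsq
                refine ⟨1, ?_⟩
                have h3 : ((3 : ℕ) : ℤ) ∣ d - 1 := by push_cast; omega
                have h4 := (ZMod.intCast_zmod_eq_zero_iff_dvd (d - 1) 3).2 h3
                push_cast at h4
                rw [mul_one]
                exact sub_eq_zero.1 h4
              · exact h2
            have h2 : (d * (d - m) * (d - 9 * m)) % 3 = 1 := by
              have e1 : d % 3 = 2 % 3 := by omega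
              have e2 : (d - m) % 3 = 1 % 3 := by omega
              have e3 : (d - 9 * m) % 3 = 2 % 3 := by omega
              have := (Int.ModEq.mul (Int.ModEq.mul (show d ≡ 2 [ZMOD 3] from e1)
                (show d - m ≡ 1 [ZMOD 3] from e2)) (show d - 9 * m ≡ 2 [ZMOD 3] from e3))
              have h5 : d * (d - m) * (d - 9 * m) % 3 = 2 * 1 * 2 % 3 := this
              rw [h5]
              norm_num
            have h3 : ¬ ((3 : ℕ) : ℤ) ∣ d * (d - m) * (d - 9 * m) := by push_cast; omega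
            obtain ⟨Y, hY⟩ := sq_of_zmod (p := 3) (by norm_num) h3 (by
              refine ⟨1, ?_⟩
              have h5 : ((3 : ℕ) : ℤ) ∣ d * (d - m) * (d - 9 * m) - 1 := by push_cast; omega
              have h4 := (ZMod.intCast_zmod_eq_zero_iff_dvd (d * (d - m) * (d - 9 * m) - 1) 3).2 h5
              rw [Int.cast_sub, Int.cast_one] at h4
              rw [mul_one]
              exact sub_eq_zero.1 h4)
            push_cast at hY
            refine ⟨(d : ℚ_[3]), Y, 1, by exact_mod_cast hd0, ?_, by ring⟩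
            push_cast
            rw [pow_two, ← hY]
            ring
          · -- the primes of good reduction
            have hz : ∀ n : ℤ, ¬ (p : ℤ) ∣ n → ((n : ℤ) : ZMod p) ≠ 0 := fun n hn h =>
              hn ((ZMod.intCast_zmod_eq_zero_iff_dvd n p).1 h)
            have hb : ((4 * m ^ 2 : ℤ) : ZMod p) ≠ 0 := by
              apply hz
              intro h
              rcases hpr.dvd_or_dvd h with h3 | h3
              · have e : (4 : ℤ) = 2 ^ 2 := by norm_num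
                rw [e] at h3
                exact not_dvd_of_prime Nat.prime_two hp2 (hpr.dvd_of_dvd_pow h3)
              · exact hpm (hpr.dvd_of_dvd_pow h3)
            refine Pool.Agent.Z894.LG.aux p (5 * m) (4 * m ^ 2) d hp2 hb ?_ hd0 ?_
            · have e : (((5 * m : ℤ) : ZMod p)) ^ 2 - 4 * ((4 * m ^ 2 : ℤ) : ZMod p) =
                  (3 * (m : ZMod p)) ^ 2 := by
                push_cast; ring
              rw [e]
              apply quadraticChar_sq_one'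
              have h16 : ¬ (p : ℤ) ∣ 3 * m := by
                intro h
                rcases hpr.dvd_or_dvd h with h3 | h3
                · exact not_dvd_of_prime Nat.prime_three hp3 h3
                · exact hpm h3
              have := hz _ h16
              push_cast at this
              exact this
            · rcases quadraticChar_dichotomy (hz d hpd) with h | h
              · exfalso
                exact hsq ((quadraticChar_one_iff_isSquare (hz d hpd)).1 h)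
              · exact h
  · -- the real place
    rcases lt_or_gt_of_ne hd0 with h | h
    · refine locI_m (pt_allR m) hm0 hd0 ?_
      have h1 : (0 : ℝ) ≤ (d : ℝ) * m := by
        have h2 : (0 : ℤ) ≤ d * m := (mul_pos_of_neg_of_neg h hm.neg).le
        exact_mod_cast h2
      exact ⟨Real.sqrt ((d : ℝ) * m), (Real.mul_self_sqrt h1).symm⟩
    · refine locI_sq (pt_allR m) hd0 ?_
      have h1 : (0 : ℝ) ≤ (d : ℝ) := by exact_mod_cast h.le
      exact ⟨Real.sqrt (d : ℝ), (Real.mul_self_sqrt h1).symm⟩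

/-- a nontrivial element of `Ш[2]` from an everywhere locally trivial class -/
theorem sha_ex24 {m d : ℤ} (hm : m < 0) (hns : ¬ IsSquare (-(m : ℚ))) (hd : d ≠ 0)
    (n1 : ¬ IsSquare (d : ℚ)) (n2 : ¬ IsSquare ((d : ℚ) * m))
    (hl : ∀ (p : ℕ) [Fact p.Prime], LocI ℚ_[p] (5 * m) (4 * m ^ 2) d)
    (hr : LocI ℝ (5 * m) (4 * m ^ 2) d)
    (hf : Finite (WZ (5 * m) (4 * m ^ 2)).toAffine.Point) :
    ∃ x : Sha (WZ (5 * m) (4 * m ^ 2)), x ≠ 0 ∧ x + x = 0 := by
  have hm0 : m ≠ 0 := hm.ne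
  have hb : (4 * m ^ 2 : ℤ) ≠ 0 := mul_ne_zero (by norm_num) (pow_ne_zero 2 hm0)
  have hab : (5 * m) ^ 2 - 4 * (4 * m ^ 2) ≠ 0 := by
    have : (5 * m) ^ 2 - 4 * (4 * m ^ 2) = 9 * m ^ 2 := by ring
    rw [this]
    exact mul_ne_zero (by norm_num) (pow_ne_zero 2 hm0)
  have h1 : S_COC := Pool.Agent.Z488.t_COC
  have h2 : S_LOT := Pool.Agent.Y210.Z702.t_LOT
  have h3 : S_COB := Pool.Agent.Z290.COBf.t_COB
  have hc : coc hb d ∈ shaCoc (WZ (5 * m) (4 * m ^ 2)) := ⟨(h1 _ _ hb d).1,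
    fun p _ => h2 _ _ hb d hab hd ℚ_[p] (hl p), h2 _ _ hb d hab hd ℝ hr⟩
  let N : AddSubgroup (shaCoc (WZ (5 * m) (4 * m ^ 2))) :=
    (cob (WZ (5 * m) (4 * m ^ 2))).addSubgroupOf (shaCoc (WZ (5 * m) (4 * m ^ 2)))
  let y : shaCoc (WZ (5 * m) (4 * m ^ 2)) := ⟨coc hb d, hc⟩
  refine ⟨(QuotientAddGroup.mk y : shaCoc (WZ (5 * m) (4 * m ^ 2)) ⧸ N), ?_, ?_⟩
  · intro h0
    have h0' : (QuotientAddGroup.mk y : shaCoc (WZ (5 * m) (4 * m ^ 2)) ⧸ N) = 0 := h0
    rw [QuotientAddGroup.eq_zero_iff, AddSubgroup.mem_addSubgroupOf] at h0'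
    rcases h3 _ _ hb d hab hd h0' with h | h | h
    · exact n1 h
    · apply n1
      obtain ⟨r, hr'⟩ := h
      have hm' : (m : ℚ) ≠ 0 := by exact_mod_cast hm0
      refine ⟨r / (3 * m), ?_⟩
      push_cast at hr'
      field_simp
      linear_combination hr'
    · rcases tor4 hm hns hf h with h | h
      · exact n1 h
      · exact n2 h
  · have h5 : (QuotientAddGroup.mk (y + y) : shaCoc (WZ (5 * m) (4 * m ^ 2)) ⧸ N) = 0 := by
      rw [QuotientAddGroup.eq_zero_iff, AddSubgroup.mem_addSubgroupOf]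
      have h6 : ((y + y : shaCoc (WZ (5 * m) (4 * m ^ 2))) :
          Coch (WZ (5 * m) (4 * m ^ 2))) = 0 := (h1 _ _ hb d).2
      rw [h6]
      exact cob_zero _
    exact h5

/-- transport to the curve `E_m` -/
theorem trnE {m : ℤ} (hm : m ≠ 0) :
    (Finite (WZ (5 * m) (4 * m ^ 2)).toAffine.Point ↔ Finite (EQm m).toAffine.Point) ∧
    ((∀ x : Sha (WZ (5 * m) (4 * m ^ 2)), x + x = 0 → x = 0) ↔
      ∀ x : Sha (EQm m), x + x = 0 → x = 0) := by
  have hmQ : (m : ℚ) ≠ 0 := by exact_mod_cast hm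
  have hv : Pool.Agent.Y700.VR (WZ (5 * m) (4 * m ^ 2)) (EQm m) 1 (-m) 0 0 := by
    refine ⟨one_ne_zero, ?_, ?_, ?_, ?_, ?_⟩
    · show (1 : ℚ) * (((0 : ℤ)) : ℚ) = 0 + 2 * 0
      norm_num
    · show (1 : ℚ) ^ 2 * (((2 * m : ℤ)) : ℚ) = ((5 * m : ℤ) : ℚ) - 0 * 0 + 3 * (-m) - 0 ^ 2
      push_cast
      ring
    · show (1 : ℚ) ^ 3 * (((0 : ℤ)) : ℚ) = 0 + (-m) * 0 + 2 * 0
      norm_num
    · show (1 : ℚ) ^ 4 * (((-3 * m ^ 2 : ℤ)) : ℚ) = ((4 * m ^ 2 : ℤ) : ℚ) - 0 * 0 +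
        2 * (-m) * ((5 * m : ℤ) : ℚ) - (0 + -m * 0) * 0 + 3 * (-m) ^ 2 - 2 * 0 * 0
      push_cast
      ring
    · show (1 : ℚ) ^ 6 * (((0 : ℤ)) : ℚ) = 0 + (-m) * ((4 * m ^ 2 : ℤ) : ℚ) +
        (-m) ^ 2 * ((5 * m : ℤ) : ℚ) + (-m) ^ 3 - 0 * 0 - 0 ^ 2 - (-m) * 0 * 0
      push_cast
      ring
  have hT : S_TRN := Pool.Agent.Z932.Z702.t_TRN
  obtain ⟨h1, h2, -⟩ := hT _ _ _ _ _ _ hv (by
    rw [WeierstrassCurve.map_Δ]
    have e : (Em m).Δ = 2 ^ 8 * 3 ^ 2 * m ^ 6 := by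
      simp only [Em, WeierstrassCurve.Δ, WeierstrassCurve.b₂, WeierstrassCurve.b₄,
        WeierstrassCurve.b₆, WeierstrassCurve.b₈]
      ring
    have h0 : (Em m).Δ ≠ 0 := by
      rw [e]
      exact mul_ne_zero (by norm_num) (pow_ne_zero 6 hm)
    show (((Em m).Δ : ℤ) : ℚ) ≠ 0
    exact_mod_cast h0)
  exact ⟨h1, h2⟩

/-- **The converse**. -/
theorem rc_of_fin {m : ℤ} (hm : Cls m) (hf : Finite (EQm m).toAffine.Point)
    (hs : ∀ x : Sha (EQm m), x + x = 0 → x = 0) : RC m := by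
  intro d hds hsup hd4 hloc
  by_contra hcon
  push Not at hcon
  have hm0 : m ≠ 0 := hm.neg.ne
  have hm4 : m % 4 = 1 := by have := hm.m8; omega
  have hd0 : d ≠ 0 := hds.ne_zero
  have hsup' : ∀ p : ℕ, p.Prime → (p : ℤ) ∣ d → (p : ℤ) ∣ m := by
    intro p hp hpd
    exact (ram_iff' hm4 p).1 (hsup p hp hpd)
  obtain ⟨l1, l2⟩ := loc_all hm (hd4 hm4) hsup' (fun p _ hpm => hloc p ((ram_iff' hm4 p).2 hpm))
  -- squares of rational numbers
  have sqz : ∀ n : ℤ, Squarefree n → IsSquare (n : ℚ) → n = 1 := by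
    intro n hn hsq
    rw [Rat.isSquare_intCast_iff] at hsq
    obtain ⟨r, hr⟩ := hsq
    have h1 : IsUnit r := hn r ⟨1, by rw [hr]; ring⟩
    rcases Int.isUnit_iff.1 h1 with h | h <;> rw [hr, h] <;> norm_num
  have hsn : Squarefree (-m) := fun x hx => hm.sqf x (by rwa [dvd_neg] at hx)
  have hns : ¬ IsSquare (-(m : ℚ)) := by
    intro h
    have h1 := sqz (-m) hsn (by push_cast; exact h)
    have := hm.m3
    omega
  have n1 : ¬ IsSquare (d : ℚ) := fun h => hcon.1 (sqz d hds h)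
  have hdm : d ∣ m := by
    have h1 : d.natAbs ∣ m.natAbs := dvd_of_primes (Int.squarefree_natAbs.2 hds) (fun p hp hpd =>
      Int.natCast_dvd.1 (hsup' p hp (Int.natCast_dvd.2 hpd)))
    exact Int.natAbs_dvd_natAbs.1 h1
  have n2 : ¬ IsSquare ((d : ℚ) * m) := by
    intro h
    obtain ⟨c, hc⟩ := hdm
    have hd' : (d : ℚ) ≠ 0 := by exact_mod_cast hd0
    have h1 : IsSquare (c : ℚ) := by
      have e : (d : ℚ) * m = (d * d) * (c : ℚ) := by
        rw [hc]; push_cast; ring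
      rw [e] at h
      exact sq_cancel (mul_ne_zero hd' hd') (IsSquare.mul_self _) h
    have hcs : Squarefree c := hm.sqf.squarefree_of_dvd ⟨d, by rw [hc, mul_comm]⟩
    have h2 := sqz _ hcs h1
    apply hcon.2
    rw [hc, h2, mul_one]
  obtain ⟨t1, t2⟩ := trnE hm0
  obtain ⟨x, hx, hxx⟩ := sha_ex24 hm.neg hns hd0 n1 n2 (fun p _ => l1 p) l2 (t1.2 hf)
  exact hx (t2.2 hs x hxx)

end Pool.Agent.N373.P24
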