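import Pool.Agent.N875.X15.Glob

/-!
# Local conditions for the curves `y² = x (x - m) (x + 3 m)`

`m < 0` squarefree, `m ≡ 5 mod 8`, `m ≡ 1 mod 3`.
-/

set_option autoImplicit false

namespace Pool.Agent.N373.P24

open Pool.Agent.TH841.SH (LocC SelG)
open Pool.Agent.Y667.RP (mod_of_sq)
open Pool.Agent.N875.X15 (norm_lt_iff norm_le_iff norm_eq_iff close closeV val_add_ge even_val
  sq_cancel sq_trans loc_ram loc_unr close2 sq_of_mod8 unit_part unit_odd int_of_sq val_add_eq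
  val_zero val_p val_one not_dvd_of_even val_mul_unit not_dvd_of_prime sq_mod3 drop to_coord)

/-- the class of `m` -/
structure Cls (m : ℤ) : Prop where
  neg : m < 0
  sqf : Squarefree m
  m8 : m % 8 = 5
  m3 : m % 3 = 1

lemma Cls.ne {m : ℤ} (hm : Cls m) : m ≠ 0 := hm.neg.ne

/-- the local condition in terms of `u = x` -/
lemma locC_iff {K : Type} [Field K] [CharZero K] {m d1 d2 : ℤ}
    (h : LocC K 0 m (-3 * m) d1 d2) :
    ∃ u : K, u ≠ 0 ∧ u - m ≠ 0 ∧ u + 3 * m ≠ 0 ∧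
      IsSquare (u * (u - m) * (u + 3 * m)) ∧ IsSquare (u * d1) ∧
      IsSquare ((u - m) * d2) := by
  obtain ⟨x, y, hy, hxy, h1, h2⟩ := h
  push_cast at hxy h1 h2
  have e1 : x - 0 = x := sub_zero x
  have e2 : x - -3 * (m : K) = x + 3 * m := by ring
  rw [e1, e2] at hxy
  rw [e1] at h1
  have h0 : x * (x - m) * (x + 3 * m) ≠ 0 := by rw [← hxy]; exact pow_ne_zero 2 hy
  exact ⟨x, left_ne_zero_of_mul (left_ne_zero_of_mul h0), right_ne_zero_of_mul
    (left_ne_zero_of_mul h0), right_ne_zero_of_mul h0, ⟨y, by rw [← hxy, pow_two]⟩, h1, h2⟩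

lemma val_neg {p : ℕ} [hp : Fact p.Prime] (x : ℚ_[p]) : (-x).valuation = x.valuation := by
  by_cases hx : x = 0
  · rw [hx, neg_zero]
  exact (norm_eq_iff (neg_ne_zero.2 hx) hx).1 (norm_neg x)

section odd

variable {p : ℕ} [hp : Fact p.Prime]

lemma sq4' : IsSquare (4 : ℚ_[p]) := ⟨2, by norm_num⟩

/-- **The local condition at the primes dividing `m`.** -/
theorem loc_dvd (hp2 : p ≠ 2) (hp3 : p ≠ 3) {m d1 d2 : ℤ} (hm : Squarefree m) (hpm : (p : ℤ) ∣ m)
    (h : LocC ℚ_[p] 0 m (-3 * m) d1 d2) :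
    (IsSquare (d1 : ℚ_[p]) ∧ IsSquare (d2 : ℚ_[p])) ∨
    (IsSquare ((d1 : ℚ_[p]) * (-3)) ∧ IsSquare ((d2 : ℚ_[p]) * (-m))) ∨
    (IsSquare ((d1 : ℚ_[p]) * m) ∧ IsSquare (d2 : ℚ_[p])) ∨
    (IsSquare ((d1 : ℚ_[p]) * (-3 * m)) ∧ IsSquare ((d2 : ℚ_[p]) * (-m))) := by
  obtain ⟨u, hu, hv, hw, hs, h1, h2⟩ := locC_iff h
  have hm0 : m ≠ 0 := hm.ne_zero
  have hm' : (m : ℚ_[p]) ≠ 0 := by exact_mod_cast hm0
  have vm := val_one hpm hm
  have n2 : ¬ (p : ℤ) ∣ (2 : ℤ) := not_dvd_of_prime Nat.prime_two hp2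
  have n3' : ¬ (p : ℤ) ∣ (3 : ℤ) := not_dvd_of_prime Nat.prime_three hp3
  have hpr : Prime (p : ℤ) := Nat.prime_iff_prime_int.1 hp.out
  have v4 : (4 * (m : ℚ_[p])).valuation = 1 := by
    have := val_mul_unit (p := p) (n := m) 4 (fun h => n2 (by
      have : (4 : ℤ) = 2 ^ 2 := by norm_num
      rw [this] at h
      exact hpr.dvd_of_dvd_pow h)) hm0
    push_cast at this
    rw [this, vm]
  have v3 : (3 * (m : ℚ_[p])).valuation = 1 := by
    have := val_mul_unit (p := p) (n := m) 3 n3' hm0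
    push_cast at this
    rw [this, vm]
  have E1 : u - (m : ℚ_[p]) - u = -m := by ring
  have E2 : u + 3 * (m : ℚ_[p]) - u = 3 * m := by ring
  have E3 : u + 3 * (m : ℚ_[p]) - (u - m) = 4 * m := by ring
  have E1' : u - (u - (m : ℚ_[p])) = m := by ring
  have E2' : u - (u + 3 * (m : ℚ_[p])) = -3 * m := by ring
  have E3' : u - (m : ℚ_[p]) - (u + 3 * m) = 4 * (-m) := by ring
  have n3 : (3 * (m : ℚ_[p])) ≠ 0 := mul_ne_zero (by norm_num) hm'
  have n4 : (4 * (m : ℚ_[p])) ≠ 0 := mul_ne_zero (by norm_num) hm'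
  have q4 : (4 : ℚ_[p]) ≠ 0 := by norm_num
  have := loc_ram hp2 (u := u) (v := u - (m : ℚ_[p])) (w := u + 3 * m) hu hv hw hs
    (by rw [E1]; exact neg_ne_zero.2 hm') (by rw [E2]; exact n3)
    (by rw [E3]; exact n4) (l := 1) (k := 1) (by rw [E1, val_neg, vm])
    (by rw [E2, v3]) (by rw [E3, v4]) (by norm_num) (by decide)
  rw [E1, E2, E3, E1', E2', E3'] at this
  have hone : ∀ {x : ℚ_[p]}, IsSquare x → IsSquare (x * 1) := fun h => by rwa [mul_one]
  rcases this with ⟨a, b⟩ | ⟨a, b⟩ | ⟨a, b⟩ | ⟨a, b⟩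
  · left
    have c1 := to_coord hu (hone a) h1
    have c2 := to_coord hv (hone b) h2
    rw [mul_one] at c1 c2
    exact ⟨c1, c2⟩
  · -- `v ~ -m`, `w ~ 3m`
    right; left
    refine ⟨?_, to_coord hv a h2⟩
    have c : IsSquare (u * (-3)) := by
      have c1 := hs.mul (a.mul b)
      have e : u * (u - (m : ℚ_[p])) * (u + 3 * m) * ((u - (m : ℚ_[p])) * (-m) *
          ((u + 3 * m) * (3 * m))) =
        (((u - (m : ℚ_[p])) * (u + 3 * m) * m) * ((u - (m : ℚ_[p])) * (u + 3 * m) * m)) *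
          (u * (-3)) := by ring
      rw [e] at c1
      have h0 : (u - (m : ℚ_[p])) * (u + 3 * m) * m ≠ 0 := mul_ne_zero (mul_ne_zero hv hw) hm'
      exact sq_cancel (mul_ne_zero h0 h0) (IsSquare.mul_self _) c1
    exact to_coord hu c h1
  · right; right; left
    refine ⟨to_coord hu a h1, ?_⟩
    have b' : IsSquare ((u + 3 * (m : ℚ_[p])) * m) := drop sq4' q4 b
    have c : IsSquare ((u - (m : ℚ_[p])) * 1) := by
      have c1 := hs.mul (a.mul b')
      have e : u * (u - (m : ℚ_[p])) * (u + 3 * m) * (u * m * ((u + 3 * m) * m)) =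
        ((u * (u + 3 * m) * m) * (u * (u + 3 * m) * m)) * ((u - (m : ℚ_[p])) * 1) := by ring
      rw [e] at c1
      have h0 : u * (u + 3 * (m : ℚ_[p])) * m ≠ 0 := mul_ne_zero (mul_ne_zero hu hw) hm'
      exact sq_cancel (mul_ne_zero h0 h0) (IsSquare.mul_self _) c1
    have := to_coord hv c h2
    rwa [mul_one] at this
  · right; right; right
    exact ⟨to_coord hu a h1, to_coord hv (drop sq4' q4 b) h2⟩

/-- **The local condition at the primes of good reduction.** -/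
theorem loc_ndvd (hp2 : p ≠ 2) (hp3 : p ≠ 3) {m d1 d2 : ℤ} (hm0 : m ≠ 0) (hpm : ¬ (p : ℤ) ∣ m)
    (hd1 : Squarefree d1) (hd2 : Squarefree d2)
    (h : LocC ℚ_[p] 0 m (-3 * m) d1 d2) : ¬ (p : ℤ) ∣ d1 ∧ ¬ (p : ℤ) ∣ d2 := by
  obtain ⟨u, hu, hv, hw, hs, h1, h2⟩ := locC_iff h
  have hm' : (m : ℚ_[p]) ≠ 0 := by exact_mod_cast hm0
  have vm := val_zero hpm
  have n2 : ¬ (p : ℤ) ∣ (2 : ℤ) := not_dvd_of_prime Nat.prime_two hp2
  have n3' : ¬ (p : ℤ) ∣ (3 : ℤ) := not_dvd_of_prime Nat.prime_three hp3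
  have hpr : Prime (p : ℤ) := Nat.prime_iff_prime_int.1 hp.out
  have v4 : (4 * (m : ℚ_[p])).valuation = 0 := by
    have := val_mul_unit (p := p) (n := m) 4 (fun h => n2 (by
      have : (4 : ℤ) = 2 ^ 2 := by norm_num
      rw [this] at h
      exact hpr.dvd_of_dvd_pow h)) hm0
    push_cast at this
    rw [this, vm]
  have v3 : (3 * (m : ℚ_[p])).valuation = 0 := by
    have := val_mul_unit (p := p) (n := m) 3 n3' hm0
    push_cast at this
    rw [this, vm]
  have E1 : u - (m : ℚ_[p]) - u = -m := by ring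
  have E2 : u + 3 * (m : ℚ_[p]) - u = 3 * m := by ring
  have E3 : u + 3 * (m : ℚ_[p]) - (u - m) = 4 * m := by ring
  have n3 : (3 * (m : ℚ_[p])) ≠ 0 := mul_ne_zero (by norm_num) hm'
  have n4 : (4 * (m : ℚ_[p])) ≠ 0 := mul_ne_zero (by norm_num) hm'
  have := loc_unr hp2 (u := u) (v := u - (m : ℚ_[p])) (w := u + 3 * m) hu hv hw hs
    (by rw [E1]; exact neg_ne_zero.2 hm') (by rw [E2]; exact n3)
    (by rw [E3]; exact n4) (l := 0) (k := 0) (by rw [E1, val_neg, vm])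
    (by rw [E2, v3]) (by rw [E3, v4]) (by norm_num) (by decide) (by decide)
    (fun h => absurd h (by norm_num))
  exact ⟨not_dvd_of_even hu this.1 hd1 h1, not_dvd_of_even hv this.2.1 hd2 h2⟩

end odd

/-- non squares modulo `p` -/
lemma zmod_sq {p : ℕ} [hp : Fact p.Prime] {n : ℤ} (h : IsSquare (n : ℚ_[p])) :
    IsSquare ((n : ℤ) : ZMod p) := by
  obtain ⟨r, hr⟩ := h
  have h1 : ‖r‖ ≤ 1 := by
    by_contra hcon
    push Not at hcon
    have h2 : ‖(n : ℚ_[p])‖ ≤ 1 := Padic.norm_int_le_one n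
    rw [hr, norm_mul] at h2
    nlinarith
  obtain ⟨v, hv⟩ : ∃ v : ℤ_[p], (v : ℚ_[p]) = r := ⟨⟨r, h1⟩, rfl⟩
  have h2 : ((n : ℤ) : ℤ_[p]) = v * v := by
    apply Subtype.ext
    rw [PadicInt.coe_mul, hv]
    push_cast
    exact hr
  have h3 := congrArg (PadicInt.toZMod (p := p)) h2
  rw [map_mul, map_intCast] at h3
  exact ⟨_, h3⟩

/-- **The local condition at `3`.** -/
theorem loc_three {m : ℤ} (hm3 : m % 3 = 1) {u : ℚ_[3]} (hu : u ≠ 0) (hv : u - m ≠ 0)
    (hw : u + 3 * m ≠ 0) (hs : IsSquare (u * (u - m) * (u + 3 * m))) :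
    Even (u - m).valuation ∧ (IsSquare (u - m) ∧ Even u.valuation ∨
      IsSquare ((u - m) * (-m)) ∧ Odd u.valuation) := by
  have hp2 : (3 : ℕ) ≠ 2 := by norm_num
  have hm0 : m ≠ 0 := by rintro rfl; simp at hm3
  have hm' : (m : ℚ_[3]) ≠ 0 := by exact_mod_cast hm0
  have vm : (m : ℚ_[3]).valuation = 0 := val_zero (by push_cast; omega)
  have v3 : (3 * (m : ℚ_[3])).valuation = 1 := by
    rw [Padic.valuation_mul (by norm_num) hm', vm]
    have : (3 : ℚ_[3]) = ((3 : ℕ) : ℚ_[3]) := by norm_num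
    rw [this, Padic.valuation_p]
    norm_num
  have n3 : (3 * (m : ℚ_[3])) ≠ 0 := mul_ne_zero (by norm_num) hm'
  have E1 : u - (m : ℚ_[3]) - u = -m := by ring
  have E2 : u + 3 * (m : ℚ_[3]) - u = 3 * m := by ring
  have hsum : Even (u.valuation + (u - m).valuation + (u + 3 * m).valuation) := by
    have := even_val (mul_ne_zero (mul_ne_zero hu hv) hw) hs
    rwa [Padic.valuation_mul (mul_ne_zero hu hv) hw, Padic.valuation_mul hu hv] at this
  obtain ⟨k, hk⟩ := hsum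
  rcases le_or_gt u.valuation 0 with c | c
  · -- `w ~ u`
    obtain ⟨a1, a2⟩ := closeV hp2 hw hu (by rw [E2]; exact n3) (by rw [E2, v3]; omega)
    have b1 : IsSquare (u - m) := by
      have e : u * (u - m) * (u + 3 * m) = ((u + 3 * m) * u) * (u - m) := by ring
      rw [e] at hs
      exact sq_cancel (mul_ne_zero hw hu) a1 hs
    have b2 := even_val hv b1
    refine ⟨b2, Or.inl ⟨b1, ?_⟩⟩
    rcases lt_or_eq_of_le c with c' | c'
    · obtain ⟨-, a3⟩ := closeV hp2 hv hu (by rw [E1]; exact neg_ne_zero.2 hm')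
        (by rw [E1, val_neg, vm]; exact c')
      rw [← a3]
      exact b2
    · rw [c']
      exact Even.zero
  · -- `v ~ -m`
    obtain ⟨a1, a2⟩ := closeV hp2 hv (neg_ne_zero.2 hm') (by
      rw [sub_neg_eq_add, sub_add_cancel]; exact hu) (by
      rw [sub_neg_eq_add, sub_add_cancel, val_neg, vm]; exact c)
    rw [val_neg, vm] at a2
    refine ⟨by rw [a2]; exact Even.zero, Or.inr ⟨a1, ?_⟩⟩
    rcases lt_or_eq_of_le (show (1 : ℤ) ≤ u.valuation from c) with c' | c'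
    · obtain ⟨-, a3⟩ := closeV hp2 hw n3 (by rw [add_sub_cancel_right]; exact hu) (by
        rw [add_sub_cancel_right, v3]; exact c')
      rw [a3, a2, v3] at hk
      exact ⟨k - 1, by omega⟩
    · rw [← c']
      exact odd_one

/-- a squarefree integer in the local condition at `3` -/
lemma loc_three' {m d1 d2 : ℤ} (hm3 : m % 3 = 1) (hd1 : Squarefree d1) (hd2 : Squarefree d2)
    (h : LocC ℚ_[3] 0 m (-3 * m) d1 d2) :
    ¬ (3 : ℤ) ∣ d2 ∧ (d2 % 3 = 1 ∧ ¬ (3 : ℤ) ∣ d1 ∨ d2 % 3 = 2 ∧ (3 : ℤ) ∣ d1) := by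
  obtain ⟨u, hu, hv, hw, hs, h1, h2⟩ := locC_iff h
  obtain ⟨a, b⟩ := loc_three hm3 hu hv hw hs
  have hm0 : m ≠ 0 := by rintro rfl; simp at hm3
  have hm' : (m : ℚ_[3]) ≠ 0 := by exact_mod_cast hm0
  have k2 : ¬ (3 : ℤ) ∣ d2 := by exact_mod_cast not_dvd_of_even hv a hd2 h2
  have key : ∀ n : ℤ, ¬ (3 : ℤ) ∣ n → IsSquare (n : ℚ_[3]) → n % 3 = 1 := by
    intro n hn hsq
    have h7 := sq_mod3 _ (zmod_sq (p := 3) hsq)
    have h11 : ∀ k : ℤ, ((n : ℤ) : ZMod 3) = (k : ZMod 3) → (3 : ℤ) ∣ n - k := by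
      intro k hk
      have : ((n - k : ℤ) : ZMod 3) = 0 := by
        push_cast at hk ⊢
        rw [hk, sub_self]
      exact (ZMod.intCast_zmod_eq_zero_iff_dvd (n - k) 3).1 this
    rcases h7 with h | h
    · have := h11 0 (by simpa using h)
      omega
    · have := h11 1 (by simpa using h)
      omega
  refine ⟨k2, ?_⟩
  rcases b with ⟨b1, b2⟩ | ⟨b1, b2⟩
  · left
    refine ⟨key d2 k2 (sq_cancel hv b1 h2), ?_⟩
    exact_mod_cast not_dvd_of_even hu b2 hd1 h1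
  · right
    constructor
    · have h3 : IsSquare (((d2 * -m : ℤ)) : ℚ_[3]) := by
        push_cast
        exact to_coord hv b1 h2
      have h4 := key (d2 * -m) (by
        intro h5
        rcases Int.prime_three.dvd_or_dvd h5 with h6 | h6
        · exact k2 h6
        · omega) h3
      have h5 : d2 % 3 = 1 ∨ d2 % 3 = 2 := by omega
      rcases h5 with h5 | h5
      · exfalso
        have h6 : (d2 * -m) % 3 = 2 := by
          rw [Int.mul_emod, h5]
          have : (-m) % 3 = 2 := by omega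
          rw [this]
          norm_num
        omega
      · exact h5
    · by_contra hcon
      have h3 := even_val (mul_ne_zero hu (by exact_mod_cast hd1.ne_zero)) h1
      rw [Padic.valuation_mul hu (by exact_mod_cast hd1.ne_zero), val_zero (p := 3) (n := d1)
        (by exact_mod_cast hcon), add_zero] at h3
      exact (Int.not_even_iff_odd.2 b2) h3

end Pool.Agent.N373.P24
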