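import Pool.Agent.N373.P24.Conv
import Pool.Agent.N373.P24.LinR
import Pool.Agent.N875.X15.Main
import Pool.Agent.N877.P24.Defs

/-!
# The algebraic side: `E_{-n}(ℚ)` finite and `Ш[2] = 0` if and only if `Qc n`

`E_m : y² = x (x - m) (x + 3 m)`, `m = -n`, `n ≡ 11 mod 24` squarefree.
-/

set_option autoImplicit false

namespace Pool.Agent.N373.P24

open WeierstrassCurve
open Pool.Agent.TH841.SH.D (Sha)
open Pool.Agent.H437R2.Man.MW (crv pt_fg)
open Pool.Agent.N875.X15 (RC NC sq_of_zmod recip fin_of_rank ram_iff dvd_of_primes nc_of rc_of)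

open scoped Classical in
lemma fg_E {m : ℤ} (hm : m ≠ 0) : AddGroup.FG (EQm m).toAffine.Point := by
  have h := isR m
  have hm' : (m : ℚ) ≠ 0 := by exact_mod_cast hm
  have hW : EQm m = crv (-(((0 : ℤ)) : ℚ)) (-((m : ℤ) : ℚ)) (-((-3 * m : ℤ) : ℚ)) := by
    apply WeierstrassCurve.ext
    · rw [h.h1]
      rfl
    · rw [h.h2]
      show _ = -(((0 : ℤ)) : ℚ) + -((m : ℤ) : ℚ) + -((-3 * m : ℤ) : ℚ)
      ring
    · rw [h.h3]
      rfl
    · rw [h.h4]
      show _ = -(((0 : ℤ)) : ℚ) * -((m : ℤ) : ℚ) + -(((0 : ℤ)) : ℚ) * -((-3 * m : ℤ) : ℚ) +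
        -((m : ℤ) : ℚ) * -((-3 * m : ℤ) : ℚ)
      ring
    · rw [h.h6]
      show _ = -(((0 : ℤ)) : ℚ) * -((m : ℤ) : ℚ) * -((-3 * m : ℤ) : ℚ)
      ring
  rw [hW]
  refine pt_fg ?_ ?_ ?_
  · intro h1
    apply hm'
    push_cast at h1
    linear_combination h1
  · intro h1
    apply hm'
    push_cast at h1
    linear_combination (-1 / 3 : ℚ) * h1
  · intro h1
    apply hm'
    push_cast at h1
    linear_combination (-1 / 4 : ℚ) * h1

theorem finite_of_crit {m : ℤ} (hm : Cls m) (hR : RC m) (hN : NC m) :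
    Finite (EQm m).toAffine.Point ∧
    ∀ (k : ℕ) (x : Sha (EQm m)), (2 ^ k : ℕ) • x = 0 → x = 0 := by
  obtain ⟨h1, h2⟩ := rank_sha hm hR hN
  exact ⟨fin_of_rank (fg_E hm.neg.ne) h1, h2⟩

section

variable {n : ℕ}

lemma cls_neg (hn : Squarefree n) (h24 : n % 24 = 11) : Cls (-(n : ℤ)) := by
  refine ⟨?_, ?_, by omega, by omega⟩
  · have := hn.ne_zero
    omega
  · intro x hx
    rw [dvd_neg] at hx
    exact Int.squarefree_natCast.2 hn x hx

/-- the two forms of the elementary condition -/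
lemma qc_iff (hn : n ≠ 0) : Pool.Agent.N877.P24.Qc n ↔ Pool.Agent.N875.X15.Qc n := by
  have key : ∀ b c : ℕ, b * c = n → ((∀ p ∈ c.primeFactors, jacobiSym b p = 1) ↔
      ∀ p : ℕ, p.Prime → p ∣ c → jacobiSym b p = 1) := by
    intro b c hbc
    have hc : c ≠ 0 := by rintro rfl; rw [mul_zero] at hbc; exact hn hbc.symm
    constructor
    · exact fun h p hp hpc => h p (Nat.mem_primeFactors.2 ⟨hp, hpc, hc⟩)
    · intro h p hp
      rw [Nat.mem_primeFactors] at hp
      exact h p hp.1 hp.2.1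
  constructor
  · intro h b c hbc h1 h2
    exact h b c hbc ((key b c hbc).2 h1) ((key c b (by rw [mul_comm]; exact hbc)).2 h2)
  · intro h b c hbc h1 h2
    exact h b c hbc ((key b c hbc).1 h1) ((key c b (by rw [mul_comm]; exact hbc)).1 h2)

theorem qc_of_rc (hn : Squarefree n) (h4 : n % 4 = 3) (h : RC (-(n : ℤ))) :
    Pool.Agent.N875.X15.Qc n := by
  refine transpose_rev hn h4 ?_
  intro b c hbc hb hc
  have hb0 : b ≠ 0 := by rintro rfl; rw [zero_mul] at hbc; omega
  have hbn : b ∣ n := ⟨c, hbc.symm⟩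
  have hbs : Squarefree b := hn.squarefree_of_dvd hbn
  have hcop : Nat.Coprime b c := by
    rw [← hbc] at hn
    exact Nat.coprime_of_squarefree_mul hn
  have hodd : ∀ p : ℕ, p.Prime → p ∣ n → Odd p := by
    intro p hp hpn
    rcases hp.eq_two_or_odd' with h1 | h1
    · subst h1
      omega
    · exact h1
  have hb2 : b % 2 = 1 := by
    rcases Nat.mod_two_eq_zero_or_one b with h1 | h1
    · exfalso
      have := (Nat.dvd_of_mod_eq_zero h1).trans hbn
      omega
    · exact h1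
  -- the sign
  obtain ⟨d, hd4, hdb⟩ : ∃ d : ℤ, d % 4 = 1 ∧ d.natAbs = b := by
    have h1 : b % 4 = 1 ∨ b % 4 = 3 := by omega
    rcases h1 with h1 | h1
    · exact ⟨b, by omega, Int.natAbs_natCast b⟩
    · exact ⟨-b, by omega, by rw [Int.natAbs_neg, Int.natAbs_natCast]⟩
  have hds : Squarefree d := Int.squarefree_natAbs.1 (by rw [hdb]; exact hbs)
  have hd0 : d ≠ 0 := hds.ne_zero
  obtain ⟨e, he⟩ : d ∣ -(n : ℤ) := by
    rw [dvd_neg, ← Int.natAbs_dvd, hdb]
    exact_mod_cast hbn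
  have he4 : e % 4 = 1 := by
    have h1 : d % 4 * (e % 4) % 4 = 1 := by
      rw [← Int.mul_emod, ← he]
      omega
    rw [hd4] at h1
    omega
  have hec : e.natAbs = c := by
    have h1 := congrArg Int.natAbs he
    rw [Int.natAbs_mul, Int.natAbs_neg, Int.natAbs_natCast, hdb, ← hbc] at h1
    exact (Nat.eq_of_mul_eq_mul_left (Nat.pos_of_ne_zero hb0) h1).symm
  have key : ∀ (p : ℕ) [Fact p.Prime], p ≠ 2 → ∀ a : ℤ, ¬ (p : ℤ) ∣ a → jacobiSym a p = 1 →
      IsSquare (a : ℚ_[p]) := by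
    intro p hp hp2 a hpa hj
    refine sq_of_zmod hp2 hpa ?_
    rw [← jacobiSym.legendreSym.to_jacobiSym] at hj
    exact (legendreSym.eq_one_iff p (fun h0 =>
      hpa ((ZMod.intCast_zmod_eq_zero_iff_dvd a p).1 h0))).1 hj
  rcases h d hds (fun p hp hpd => (ram_iff h4 p).2
      ((by rw [← hdb]; exact Int.natCast_dvd.1 hpd : p ∣ b).trans hbn)) (fun _ => hd4)
    (fun p hp hram => by
      rw [ram_iff h4] at hram
      have hpo := hodd p hp.out hram
      have hp2 : p ≠ 2 := by rintro rfl; exact absurd hpo (by decide)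
      have hpn := hram
      rw [← hbc] at hpn
      rcases hp.out.dvd_mul.1 hpn with h1 | h1
      · right
        have h2 : ¬ (p : ℤ) ∣ e := by
          intro h3
          have h4 : p ∣ c := by rw [← hec]; exact Int.natCast_dvd.1 h3
          exact hp.out.one_lt.ne' (Nat.eq_one_of_dvd_coprimes hcop h1 h4)
        have h3 := key p hp2 e h2 (by rw [recip he4 hpo, hec]; exact hc p hp.out h1)
        rw [he]
        push_cast
        have e' : (d : ℚ_[p]) * (d * e) = (d * d) * e := by ring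
        rw [e']
        exact (IsSquare.mul_self _).mul h3
      · left
        have h2 : ¬ (p : ℤ) ∣ d := by
          intro h3
          have h4 : p ∣ b := by rw [← hdb]; exact Int.natCast_dvd.1 h3
          exact hp.out.one_lt.ne' (Nat.eq_one_of_dvd_coprimes hcop h4 h1)
        exact key p hp2 d h2 (by rw [recip hd4 hpo, hdb]; exact hb p hp.out h1)) with h1 | h1
  · left
    rw [← hdb, h1]
    rfl
  · right
    rw [h1, Int.natAbs_neg, Int.natAbs_natCast] at hdb
    rw [← hdb] at hbc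
    have h3 := hn.ne_zero
    exact Nat.eq_of_mul_eq_mul_left (Nat.pos_of_ne_zero h3) (by rw [hbc, mul_one])

/-- **The algebraic criterion.** -/
theorem crit_iff24 (hn : Squarefree n) (h24 : n % 24 = 11) :
    (Finite (EQm (-(n : ℤ))).toAffine.Point ∧
      ∀ x : Sha (EQm (-(n : ℤ))), x + x = 0 → x = 0) ↔ Pool.Agent.N877.P24.Qc n := by
  have h4 : n % 4 = 3 := by omega
  rw [qc_iff hn.ne_zero]
  constructor
  · rintro ⟨h1, h2⟩
    exact qc_of_rc hn h4 (rc_of_fin (cls_neg hn h24) h1 h2)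
  · intro h
    obtain ⟨h1, h2⟩ := finite_of_crit (cls_neg hn h24) (rc_of hn h4 h) (nc_of hn h4 h)
    refine ⟨h1, fun x hx => h2 1 x ?_⟩
    rw [pow_one, two_nsmul]
    exact hx

theorem sha_pow24 (hn : Squarefree n) (h24 : n % 24 = 11) (h : Pool.Agent.N877.P24.Qc n) :
    ∀ (k : ℕ) (x : Sha (EQm (-(n : ℤ)))), (2 ^ k : ℕ) • x = 0 → x = 0 := by
  have h4 : n % 4 = 3 := by omega
  rw [qc_iff hn.ne_zero] at h
  exact (finite_of_crit (cls_neg hn h24) (rc_of hn h4 h) (nc_of hn h4 h)).2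

end

end Pool.Agent.N373.P24
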