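import Pool.Agent.N373.P24.Tam

/-!
# Minimality of `E_m : y² = x (x - m) (x + 3 m)` and the remaining Tamagawa numbers
-/

set_option autoImplicit false

namespace Pool.Agent.N373.P24

open WeierstrassCurve
open Pool.Agent.Y700 (PtP SingRed E0 tam VR)
open Pool.Agent.W97.MT (IsGloballyMinimal)

theorem Em_Δ (m : ℤ) : (Em m).Δ = 2 ^ 8 * 3 ^ 2 * m ^ 6 := by
  simp only [Em, WeierstrassCurve.Δ, WeierstrassCurve.b₂, WeierstrassCurve.b₄,
    WeierstrassCurve.b₆, WeierstrassCurve.b₈]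
  ring

lemma prime_pow_dvd {q : ℕ} (hq : q.Prime) {m : ℤ} (hs : Squarefree m) (h2 : ¬ (2 : ℤ) ∣ m)
    (h : ((q : ℤ)) ^ 12 ∣ 2 ^ 8 * 3 ^ 2 * m ^ 6) : False := by
  have : Fact q.Prime := ⟨hq⟩
  have hm0 : m ≠ 0 := hs.ne_zero
  have hne : ((2 : ℤ) ^ 8 * 3 ^ 2 * m ^ 6) ≠ 0 :=
    mul_ne_zero (by norm_num) (pow_ne_zero _ hm0)
  have h1 : 12 ≤ padicValInt q (2 ^ 8 * 3 ^ 2 * m ^ 6) := by
    have := (padicValInt_dvd_iff (p := q) 12 (2 ^ 8 * 3 ^ 2 * m ^ 6)).1 h
    exact this.resolve_left hne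
  have h2' : padicValInt q m ≤ 1 := by
    by_contra hcon
    push Not at hcon
    have h3 : (q : ℤ) ^ 2 ∣ m := (padicValInt_dvd_iff (p := q) 2 m).2 (Or.inr hcon)
    rw [pow_two] at h3
    have h4 := hs _ h3
    exact hq.one_lt.ne' (Nat.isUnit_iff.1 (Int.ofNat_isUnit.1 h4))
  have e1 : padicValInt q (2 ^ 8 * 3 ^ 2 * m ^ 6) =
      8 * padicValInt q 2 + 2 * padicValInt q 3 + 6 * padicValInt q m := by
    rw [padicValInt.mul (by norm_num) (pow_ne_zero _ hm0), padicValInt.mul (by norm_num) (by norm_num)]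
    have hp : ∀ (a : ℤ) (_ : a ≠ 0) (n : ℕ), padicValInt q (a ^ n) = n * padicValInt q a := by
      intro a ha n
      induction n with
      | zero => simp
      | succ n ih => rw [pow_succ, padicValInt.mul (pow_ne_zero _ ha) ha, ih]; ring
    rw [hp 2 (by norm_num), hp 3 (by norm_num), hp m hm0]
  have e2 : padicValInt q 2 = padicValNat q 2 := by
    rw [show (2 : ℤ) = ((2 : ℕ) : ℤ) by norm_num, padicValInt.of_nat]
  have e3 : padicValInt q 3 = padicValNat q 3 := by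
    rw [show (3 : ℤ) = ((3 : ℕ) : ℤ) by norm_num, padicValInt.of_nat]
  rw [e1, e2, e3] at h1
  by_cases hq2 : q = 2
  · subst hq2
    have e4 : padicValInt 2 m = 0 := padicValInt.eq_zero_of_not_dvd (by exact_mod_cast h2)
    rw [e4, padicValNat_self, padicValNat.eq_zero_of_not_dvd (by norm_num : ¬ 2 ∣ 3)] at h1
    omega
  · rw [padicValNat.eq_zero_of_not_dvd (n := 2) (fun h =>
      hq2 ((Nat.prime_dvd_prime_iff_eq hq Nat.prime_two).1 h))] at h1
    by_cases hq3 : q = 3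
    · subst hq3
      rw [padicValNat_self] at h1
      omega
    · rw [padicValNat.eq_zero_of_not_dvd (n := 3) (fun h =>
        hq3 ((Nat.prime_dvd_prime_iff_eq hq Nat.prime_three).1 h))] at h1
      omega

/-- **The equation is globally minimal.** -/
theorem min_Em {m : ℤ} (h2 : ¬ (2 : ℤ) ∣ m) (hs : Squarefree m) : IsGloballyMinimal (Em m) := by
  have hΔ := Em_Δ m
  have hM0 : m ≠ 0 := hs.ne_zero
  refine ⟨?_, ?_⟩
  · rw [hΔ]
    exact mul_ne_zero (by norm_num) (pow_ne_zero _ hM0)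
  · intro W' C h
    have h1 := congrArg WeierstrassCurve.Δ h
    rw [WeierstrassCurve.variableChange_Δ, WeierstrassCurve.map_Δ, WeierstrassCurve.map_Δ] at h1
    simp only [eq_intCast] at h1
    obtain ⟨q, hq⟩ : ∃ q : ℚ, q = ((C.u⁻¹ : ℚˣ) : ℚ) := ⟨_, rfl⟩
    rw [← hq] at h1
    have hq0 : q ≠ 0 := by rw [hq]; exact Units.ne_zero _
    have h2' : (q.num : ℚ) ^ 12 * ((Em m).Δ : ℚ) = (W'.Δ : ℚ) * (q.den : ℚ) ^ 12 := by
      have hd : (q.den : ℚ) ≠ 0 := by exact_mod_cast q.den_ne_zero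
      rw [← h1]
      have hnd : q * q.den = q.num := Rat.mul_den_eq_num q
      rw [← hnd]
      ring
    have h3 : q.num ^ 12 * (Em m).Δ = W'.Δ * (q.den : ℤ) ^ 12 := by exact_mod_cast h2'
    have hcop : IsCoprime ((q.den : ℤ) ^ 12) (q.num ^ 12) := by
      refine IsCoprime.pow ?_
      rw [Int.isCoprime_iff_gcd_eq_one, Int.gcd_comm]
      exact q.reduced
    have h4 : (q.den : ℤ) ^ 12 ∣ (Em m).Δ :=
      hcop.dvd_of_dvd_mul_left ⟨W'.Δ, by rw [h3]; ring⟩
    rw [hΔ] at h4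
    have h8 : q.den = 1 := by
      by_contra hne
      obtain ⟨r, hr, hrd⟩ := Nat.exists_prime_and_dvd hne
      refine prime_pow_dvd hr hs h2 (dvd_trans ?_ h4)
      exact pow_dvd_pow_of_dvd (by exact_mod_cast hrd) 12
    rw [h8] at h3
    have h9 : W'.Δ = q.num ^ 12 * (Em m).Δ := by rw [h3]; simp
    rw [h9, abs_mul]
    have h10 : 1 ≤ |q.num ^ 12| := by
      apply Int.one_le_abs
      exact pow_ne_zero _ (Rat.num_ne_zero.2 hq0)
    nlinarith [abs_nonneg (Em m).Δ]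

/-- the primes of good reduction -/
theorem tam_good {p : ℕ} [hp : Fact p.Prime] {m : ℤ} (h6 : ¬ p ∣ 6) (hpm : ¬ (p : ℤ) ∣ m) :
    tam (Em m) p = 1 := by
  refine Pool.Agent.Y809.BSD14.t_TGOOD (Em m) p ?_
  rw [Em_Δ]
  have hpr : Prime (p : ℤ) := Nat.prime_iff_prime_int.1 hp.out
  intro h1
  rcases hpr.dvd_or_dvd h1 with h2 | h2
  · apply h6
    rcases hpr.dvd_or_dvd h2 with h3 | h3
    · have h5 := hpr.dvd_of_dvd_pow h3
      have h6 : p ∣ 2 := by exact_mod_cast h5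
      exact h6.trans (by norm_num)
    · have h5 := hpr.dvd_of_dvd_pow h3
      have h6 : p ∣ 3 := by exact_mod_cast h5
      exact h6.trans (by norm_num)
  · exact hpm (hpr.dvd_of_dvd_pow h2)

end Pool.Agent.N373.P24
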