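import Pool.Agent.N373.P24.Two
import Pool.Agent.N875.X15.Sel

/-!
# The 2-Selmer group of `y² = x (x - m) (x + 3 m)`: upper bound
-/

set_option autoImplicit false

namespace Pool.Agent.N373.P24

open Pool.Agent.TH841.SH (LocC SelG)
open Pool.Agent.N875.X15 (sq_cancel not_dvd_of_even Ram RC NC val_zero even_val)

/-- the sign -/
lemma loc_sign {m d1 d2 : ℤ} (hm : m < 0) (hd2 : d2 ≠ 0)
    (h : LocC ℝ 0 m (-3 * m) d1 d2) : 0 < d2 := by
  obtain ⟨u, hu, hv, hw, hs, h1, h2⟩ := locC_iff h
  have hm' : (m : ℝ) < 0 := by exact_mod_cast hm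
  have k2 : 0 ≤ (u - m) * d2 := by
    obtain ⟨r, hr⟩ := h2
    rw [hr]
    exact mul_self_nonneg r
  have k3 : 0 < u * (u - m) * (u + 3 * m) := by
    obtain ⟨r, hr⟩ := hs
    refine lt_of_le_of_ne ?_ (mul_ne_zero (mul_ne_zero hu hv) hw).symm
    rw [hr]
    exact mul_self_nonneg r
  have c3 : 0 < u - m := by
    by_contra hcon
    have c4 : u - (m : ℝ) < 0 := lt_of_le_of_ne (not_lt.1 hcon) hv
    have c5 : u < 0 := by linarith
    have c6 : u + 3 * (m : ℝ) < 0 := by linarith
    have c7 : 0 < u * (u - m) := mul_pos_of_neg_of_neg c5 c4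
    have c8 : u * (u - m) * (u + 3 * m) < 0 := mul_neg_of_pos_of_neg c7 c6
    linarith
  by_contra hcon
  have h3 : (d2 : ℝ) < 0 := by
    have : d2 < 0 := by omega
    exact_mod_cast this
  have := mul_neg_of_pos_of_neg c3 h3
  linarith

lemma ram_iff' {m : ℤ} (h4 : m % 4 = 1) (p : ℕ) : Ram m p ↔ (p : ℤ) ∣ m := by
  unfold Ram
  constructor
  · rintro (h | h)
    · exact h
    · omega
  · exact Or.inl

/-- **The 2-Selmer group.** -/
theorem sel_sub {m : ℤ} (hm : Cls m) (hR : RC m) (hN : NC m) {d1 d2 : ℤ}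
    (h : (d1, d2) ∈ SelG 0 m (-3 * m)) :
    (d1, d2) ∈ ({(1, 1), (m, 1), (-3, -m), (-3 * m, -m)} : Set (ℤ × ℤ)) := by
  obtain ⟨s1, s2, hR', hp⟩ := h
  simp only at s1 s2 hR' hp
  have hm0 : m ≠ 0 := hm.ne
  have hm4 : m % 4 = 1 := by have := hm.m8; omega
  have hm2 : ¬ (2 : ℤ) ∣ m := by omega
  have hm3 : ¬ (3 : ℤ) ∣ m := by have := hm.m3; omega
  have hsg := loc_sign hm.neg s2.ne_zero hR'
  obtain ⟨t1, t2⟩ := loc_two' hm.m8 s1 s2 (hp 2)
  obtain ⟨t3, t4⟩ := loc_three' hm.m3 s1 s2 (hp 3)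
  -- the support of the coordinates
  have supp : ∀ p : ℕ, p.Prime → p ≠ 2 → p ≠ 3 → ¬ (p : ℤ) ∣ m →
      ¬ (p : ℤ) ∣ d1 ∧ ¬ (p : ℤ) ∣ d2 := by
    intro p hpp hp2 hp3 hpm
    have : Fact p.Prime := ⟨hpp⟩
    exact loc_ndvd hp2 hp3 hm0 hpm s1 s2 (hp p)
  have pm2 : ∀ p : ℕ, (p : ℤ) ∣ m → p ≠ 2 := by
    rintro p hpm rfl
    exact hm2 (by exact_mod_cast hpm)
  have pm3 : ∀ p : ℕ, (p : ℤ) ∣ m → p ≠ 3 := by
    rintro p hpm rfl
    exact hm3 (by exact_mod_cast hpm)
  -- the local conditions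
  have hmsq : ∀ (p : ℕ) [Fact p.Prime], (p : ℤ) ∣ m → ∀ e : ℤ, e ∣ m → (p : ℤ) ∣ e →
      ¬ IsSquare (e : ℚ_[p]) := by
    intro p hpp hpm e he hpe hsq
    have h1 : IsSquare ((1 : ℚ_[p]) * e) := by rwa [one_mul]
    exact not_dvd_of_even one_ne_zero (by rw [Padic.valuation_one]; exact Even.zero)
      (hm.sqf.squarefree_of_dvd he) h1 hpe
  -- the second coordinate
  have hd2 : d2 = 1 ∨ d2 = -m := by
    refine hN d2 hsg s2 (fun p hpp hpd => ?_) ?_
    · rw [ram_iff' hm4]
      by_contra hpm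
      by_cases hp2 : p = 2
      · subst hp2
        exact t2 (by exact_mod_cast hpd)
      by_cases hp3 : p = 3
      · subst hp3
        exact t3 (by exact_mod_cast hpd)
      exact (supp p hpp hp2 hp3 hpm).2 hpd
    · intro p hpp _ hpm
      rcases loc_dvd (pm2 p hpm) (pm3 p hpm) hm.sqf hpm (hp p) with h | h | h | h
      · exact Or.inl h.2
      · exact Or.inr h.2
      · exact Or.inl h.2
      · exact Or.inr h.2
  rcases hd2 with rfl | rfl
  · -- `d2 = 1`
    have hd3 : ¬ (3 : ℤ) ∣ d1 := by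
      rcases t4 with h | h
      · exact h.2
      · exact absurd h.1 (by norm_num)
    have h1 : d1 = 1 ∨ d1 = m := by
      refine hR d1 s1 (fun p hpp hpd => ?_) (fun _ => t1) ?_
      · rw [ram_iff' hm4]
        by_contra hpm
        by_cases hp2 : p = 2
        · subst hp2
          have : (2 : ℤ) ∣ d1 := by exact_mod_cast hpd
          omega
        by_cases hp3 : p = 3
        · subst hp3
          exact hd3 (by exact_mod_cast hpd)
        exact (supp p hpp hp2 hp3 hpm).1 hpd
      · intro p hpp hram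
        rw [ram_iff' hm4] at hram
        have e1 : ((1 : ℤ) : ℚ_[p]) * (-m) = ((-m : ℤ) : ℚ_[p]) := by push_cast; ring
        have h9 : ¬ IsSquare (((-m : ℤ)) : ℚ_[p]) := by
          intro hsq
          have h1 : IsSquare ((1 : ℚ_[p]) * ((-m : ℤ))) := by rwa [one_mul]
          exact not_dvd_of_even one_ne_zero (by rw [Padic.valuation_one]; exact Even.zero)
            (fun x hx => hm.sqf x (by rwa [dvd_neg] at hx)) h1 (by rwa [dvd_neg])
        rcases loc_dvd (pm2 p hram) (pm3 p hram) hm.sqf hram (hp p) with h | h | h | h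
        · exact Or.inl h.1
        · rw [e1] at h
          exact absurd h.2 h9
        · exact Or.inr h.1
        · rw [e1] at h
          exact absurd h.2 h9
    rcases h1 with rfl | rfl <;> simp
  · -- `d2 = -m`
    have hd3 : (3 : ℤ) ∣ d1 := by
      rcases t4 with h | h
      · exfalso
        have := h.1
        have := hm.m3
        omega
      · exact h.2
    obtain ⟨e, he⟩ : ∃ e : ℤ, d1 = -3 * e := by
      obtain ⟨k, hk⟩ := hd3
      exact ⟨-k, by rw [hk]; ring⟩
    subst he
    have se : Squarefree e := s1.squarefree_of_dvd ⟨-3, by ring⟩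
    have he3 : ¬ (3 : ℤ) ∣ e := by
      rintro ⟨k, rfl⟩
      have h1 := s1 3 ⟨-k, by ring⟩
      rw [Int.isUnit_iff] at h1
      omega
    have h1 : e = 1 ∨ e = m := by
      refine hR e se (fun p hpp hpd => ?_) (fun _ => by omega) ?_
      · rw [ram_iff' hm4]
        by_contra hpm
        by_cases hp2 : p = 2
        · subst hp2
          have : (2 : ℤ) ∣ e := by exact_mod_cast hpd
          omega
        by_cases hp3 : p = 3
        · subst hp3
          exact he3 (by exact_mod_cast hpd)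
        exact (supp p hpp hp2 hp3 hpm).1 (hpd.mul_left _)
      · intro p hpp hram
        rw [ram_iff' hm4] at hram
        have h9 : ¬ IsSquare (((-m : ℤ)) : ℚ_[p]) := by
          intro hsq
          have h1 : IsSquare ((1 : ℚ_[p]) * ((-m : ℤ))) := by rwa [one_mul]
          exact not_dvd_of_even one_ne_zero (by rw [Padic.valuation_one]; exact Even.zero)
            (fun x hx => hm.sqf x (by rwa [dvd_neg] at hx)) h1 (by rwa [dvd_neg])
        have h10 : ∀ x : ℚ_[p], IsSquare ((9 : ℚ_[p]) * x) → IsSquare x := fun x hx =>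
          sq_cancel (by norm_num) ⟨3, by norm_num⟩ hx
        rcases loc_dvd (pm2 p hram) (pm3 p hram) hm.sqf hram (hp p) with h | h | h | h
        · exact absurd h.2 h9
        · left
          apply h10
          have := h.1
          push_cast at this
          have e' : (9 : ℚ_[p]) * e = -3 * e * -3 := by ring
          rwa [e']
        · exact absurd h.2 h9
        · right
          apply h10
          have := h.1
          push_cast at this
          have e' : (9 : ℚ_[p]) * (e * m) = -3 * e * (-3 * m) := by ring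
          rwa [e']
    rcases h1 with rfl | rfl <;> simp

theorem sel_finite {m : ℤ} (hm : Cls m) (hR : RC m) (hN : NC m) :
    (SelG 0 m (-3 * m)).Finite ∧ (SelG 0 m (-3 * m)).ncard ≤ 4 := by
  have hsub : SelG 0 m (-3 * m) ⊆
      ((({(1, 1), (m, 1), (-3, -m), (-3 * m, -m)} : Finset (ℤ × ℤ))) : Set (ℤ × ℤ)) := by
    rintro ⟨d1, d2⟩ h
    have := sel_sub hm hR hN h
    simpa using this
  refine ⟨(Finset.finite_toSet _).subset hsub, ?_⟩
  refine (Set.ncard_le_ncard hsub (Finset.finite_toSet _)).trans ?_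
  rw [Set.ncard_coe_finset]
  exact Finset.card_le_four

end Pool.Agent.N373.P24
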