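import Pool.Agent.N373.P24.Rank
import Pool.Agent.N875.X15.TamU
import Pool.Agent.Y809.BSD14.Tam1
import Pool.Agent.W97.MT.Defs

/-!
# Minimality and the Tamagawa numbers of `E_m : y² = x (x - m) (x + 3 m)`
-/

set_option autoImplicit false

namespace Pool.Agent.N373.P24

open WeierstrassCurve
open Pool.Agent.TH841.SH (IsR)
open Pool.Agent.Y700 (PtP SingRed E0 tam VR)
open Pool.Agent.Y809.BSD14 (index_of t_E0)
open Pool.Agent.W97.MT (IsGloballyMinimal)
open Pool.Agent.N875.X15 (isR_eqn add_T two_tor dbl_T val_ram normlt_iff normle_iff norm_add_lt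
  norm_sub_lt norm_mul_lt norm_mul_lt' norm_int norm_two norm_sq_lt norm_lt_of_dvd not_norm_lt
  norm_le_iff norm_lt_iff norm_eq_iff val_zero val_one val_p val_mul_unit not_dvd_of_prime)

open scoped Classical

lemma toZMod_zero_iff {p : ℕ} [Fact p.Prime] (z : ℤ_[p]) : PadicInt.toZMod z = 0 ↔ ‖z‖ < 1 := by
  have h : PadicInt.toZMod z = 0 ↔ z ∈ RingHom.ker (PadicInt.toZMod (p := p)) := Iff.rfl
  rw [h, PadicInt.ker_toZMod, IsLocalRing.mem_maximalIdeal, PadicInt.mem_nonunits]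

section tam

variable {p : ℕ} [hp : Fact p.Prime] {m : ℤ}

/-- the curve over `ℚ_p` -/
lemma isRp (p : ℕ) [Fact p.Prime] (m : ℤ) : IsR ((Em m).map (Int.castRingHom ℚ_[p]))
    (0 : ℚ_[p]) m (-3 * m) := by
  refine ⟨?_, ?_, ?_, ?_, ?_⟩ <;> simp [Em] <;> ring

lemma eqnp {x y : ℚ_[p]} (h : ((Em m).map (Int.castRingHom ℚ_[p])).toAffine.Nonsingular x y) :
    y ^ 2 = x * (x - m) * (x + 3 * m) := by
  have := (isR_eqn (isRp p m)).1 h.1
  rw [this]
  ring

lemma nonsingp (hm : m ≠ 0) {x : ℚ_[p]} (hx : x = 0 ∨ x = m ∨ x = -3 * m) :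
    ((Em m).map (Int.castRingHom ℚ_[p])).toAffine.Nonsingular x 0 := by
  have hm' : (m : ℚ_[p]) ≠ 0 := by exact_mod_cast hm
  rw [Affine.nonsingular_iff, Affine.equation_iff]
  simp only [Em, map_a₁, map_a₂, map_a₃, map_a₄, map_a₆, eq_intCast]
  push_cast
  have h3 : (m : ℚ_[p]) ^ 2 ≠ 0 := pow_ne_zero 2 hm'
  constructor
  · rcases hx with rfl | rfl | rfl <;> ring
  · left
    intro h
    apply h3
    rcases hx with rfl | rfl | rfl
    · linear_combination (1 / 3 : ℚ_[p]) * h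
    · linear_combination (-1 / 4 : ℚ_[p]) * h
    · linear_combination (-1 / 12 : ℚ_[p]) * h

/-- the points of order two -/
noncomputable def Tp (hm : m ≠ 0) {x : ℚ_[p]} (hx : x = 0 ∨ x = m ∨ x = -3 * m) :
    PtP (Em m) p := Affine.Point.some x 0 (nonsingp hm hx)

/-- singular reduction -/
lemma sing_def {x y : ℚ_[p]} : SingRed (Em m) p x y ↔ ‖x‖ ≤ 1 ∧ ‖y‖ ≤ 1 ∧
    ‖x * (x - m) + x * (x + 3 * m) + (x - m) * (x + 3 * m)‖ < 1 ∧ ‖2 * y‖ < 1 := by
  unfold SingRed
  show ‖x‖ ≤ 1 ∧ ‖y‖ ≤ 1 ∧ ‖((0 : ℤ) : ℚ_[p]) * y - (3 * x ^ 2 + 2 * ((2 * m : ℤ) : ℚ_[p]) * x +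
    ((-3 * m ^ 2 : ℤ) : ℚ_[p]))‖ < 1 ∧ ‖2 * y + ((0 : ℤ) : ℚ_[p]) * x + ((0 : ℤ) : ℚ_[p])‖ < 1 ↔ _
  have E1 : ((0 : ℤ) : ℚ_[p]) * y - (3 * x ^ 2 + 2 * ((2 * m : ℤ) : ℚ_[p]) * x +
      ((-3 * m ^ 2 : ℤ) : ℚ_[p])) =
      -(x * (x - m) + x * (x + 3 * m) + (x - m) * (x + 3 * m)) := by
    push_cast
    ring
  have E2 : (2 : ℚ_[p]) * y + ((0 : ℤ) : ℚ_[p]) * x + ((0 : ℤ) : ℚ_[p]) = 2 * y := by
    push_cast; ring
  rw [E1, E2, norm_neg]

/-- the points which have singular reduction -/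
theorem sing_iff (hp2 : p ≠ 2) {x y : ℚ_[p]}
    (h : ((Em m).map (Int.castRingHom ℚ_[p])).toAffine.Nonsingular x y) :
    SingRed (Em m) p x y ↔ ‖x‖ ≤ 1 ∧ ((‖x‖ < 1 ∧ ‖x - m‖ < 1) ∨ (‖x‖ < 1 ∧ ‖x + 3 * m‖ < 1) ∨
      (‖x - m‖ < 1 ∧ ‖x + 3 * m‖ < 1)) := by
  have e := eqnp h
  have n1 : ‖(m : ℚ_[p])‖ ≤ 1 := norm_int (p := p) m
  have n3 : ‖(3 : ℚ_[p]) * m‖ ≤ 1 := by
    have := norm_int (p := p) (3 * m)
    push_cast at this
    exact this
  have E2 : ‖2 * y‖ < 1 ↔ ‖y‖ < 1 := by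
    rw [norm_mul, norm_two hp2, one_mul]
  have A1 : ‖x‖ ≤ 1 → ‖x - m‖ ≤ 1 := by
    intro hx
    rw [sub_eq_add_neg]
    exact (Padic.nonarchimedean _ _).trans (max_le hx (by rwa [norm_neg]))
  have A2 : ‖x‖ ≤ 1 → ‖x + 3 * m‖ ≤ 1 := fun hx =>
    (Padic.nonarchimedean _ _).trans (max_le hx n3)
  have E3 : ‖x‖ ≤ 1 → (‖y‖ < 1 ↔ (‖x‖ < 1 ∨ ‖x - m‖ < 1 ∨ ‖x + 3 * m‖ < 1)) := by
    intro hx
    have a1 := A1 hx
    have a2 := A2 hx
    have e' : ‖y‖ * ‖y‖ = ‖x‖ * ‖x - m‖ * ‖x + 3 * m‖ := by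
      rw [← norm_mul, ← pow_two, e, norm_mul, norm_mul]
    constructor
    · intro hy
      by_contra hcon
      push Not at hcon
      obtain ⟨c1, c2, c3⟩ := hcon
      rw [le_antisymm hx c1, le_antisymm a1 c2, le_antisymm a2 c3] at e'
      nlinarith [norm_nonneg y]
    · intro hh
      apply norm_sq_lt
      rw [e]
      rcases hh with hh | hh | hh
      · exact norm_mul_lt (norm_mul_lt hh a1) a2
      · exact norm_mul_lt (norm_mul_lt' hx hh) a2
      · refine norm_mul_lt' ?_ hh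
        rw [norm_mul]
        exact mul_le_one₀ hx (norm_nonneg _) a1
  rw [sing_def, E2]
  constructor
  · rintro ⟨hx, hy1, hd, hy⟩
    refine ⟨hx, ?_⟩
    have a1 := A1 hx
    have a2 := A2 hx
    have hprod : ∀ s t : ℚ_[p], ‖s * t‖ < 1 → ‖s‖ < 1 ∨ ‖t‖ < 1 := by
      intro s t hst
      by_contra hcon
      push Not at hcon
      rw [norm_mul] at hst
      nlinarith [hcon.1, hcon.2]
    rcases (E3 hx).1 hy with c | c | c
    · have : ‖(x - m) * (x + 3 * m)‖ < 1 := by
        have e2 : (x - m) * (x + 3 * m) = (x * (x - m) + x * (x + 3 * m) +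
          (x - m) * (x + 3 * m)) - (x * (x - m) + x * (x + 3 * m)) := by ring
        rw [e2]
        exact norm_sub_lt hd (norm_add_lt (norm_mul_lt c a1) (norm_mul_lt c a2))
      rcases hprod _ _ this with d | d
      · exact Or.inl ⟨c, d⟩
      · exact Or.inr (Or.inl ⟨c, d⟩)
    · have : ‖x * (x + 3 * m)‖ < 1 := by
        have e2 : x * (x + 3 * m) = (x * (x - m) + x * (x + 3 * m) +
          (x - m) * (x + 3 * m)) - (x * (x - m) + (x - m) * (x + 3 * m)) := by ring
        rw [e2]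
        exact norm_sub_lt hd (norm_add_lt (norm_mul_lt' hx c) (norm_mul_lt c a2))
      rcases hprod _ _ this with d | d
      · exact Or.inl ⟨d, c⟩
      · exact Or.inr (Or.inr ⟨c, d⟩)
    · have : ‖x * (x - m)‖ < 1 := by
        have e2 : x * (x - m) = (x * (x - m) + x * (x + 3 * m) +
          (x - m) * (x + 3 * m)) - (x * (x + 3 * m) + (x - m) * (x + 3 * m)) := by ring
        rw [e2]
        exact norm_sub_lt hd (norm_add_lt (norm_mul_lt' hx c) (norm_mul_lt' a1 c))
      rcases hprod _ _ this with d | d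
      · exact Or.inr (Or.inl ⟨d, c⟩)
      · exact Or.inr (Or.inr ⟨d, c⟩)
  · rintro ⟨hx, hh⟩
    have a1 := A1 hx
    have a2 := A2 hx
    have hy : ‖y‖ < 1 := (E3 hx).2 (by tauto)
    refine ⟨hx, hy.le, ?_, hy⟩
    rcases hh with ⟨c, d⟩ | ⟨c, d⟩ | ⟨c, d⟩
    · exact norm_add_lt (norm_add_lt (norm_mul_lt c a1) (norm_mul_lt c a2)) (norm_mul_lt d a2)
    · exact norm_add_lt (norm_add_lt (norm_mul_lt c a1) (norm_mul_lt c a2)) (norm_mul_lt' a1 d)
    · exact norm_add_lt (norm_add_lt (norm_mul_lt' hx c) (norm_mul_lt' hx d)) (norm_mul_lt c a2)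

/-- the reduction at the primes dividing `m` -/
lemma sing_ram (hp2 : p ≠ 2) (hpm : (p : ℤ) ∣ m) {x y : ℚ_[p]}
    (h : ((Em m).map (Int.castRingHom ℚ_[p])).toAffine.Nonsingular x y) :
    SingRed (Em m) p x y ↔ ‖x‖ < 1 := by
  have hm1 : ‖(m : ℚ_[p])‖ < 1 := (Padic.norm_intCast_lt_one_iff).2 hpm
  have h3 : ‖3 * (m : ℚ_[p])‖ < 1 := by
    have := norm_mul_lt' (norm_int (p := p) 3) hm1
    push_cast at this
    exact this
  rw [sing_iff hp2 h]
  constructor
  · rintro ⟨-, ⟨c, -⟩ | ⟨c, -⟩ | ⟨c, -⟩⟩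
    · exact c
    · exact c
    · have e : x = (x - m) + m := by ring
      rw [e]
      exact norm_add_lt c hm1
  · intro c
    exact ⟨c.le, Or.inl ⟨c, norm_sub_lt c hm1⟩⟩

/-- the coset representatives -/
noncomputable def rp (hm : m ≠ 0) (i : Fin 4) : PtP (Em m) p :=
  if i = 0 then 0 else if i = 1 then Tp hm (Or.inl rfl) else
    if i = 2 then Tp hm (Or.inr (Or.inl rfl)) else Tp hm (Or.inr (Or.inr rfl))

lemma rp_dbl (hm : m ≠ 0) (i : Fin 4) : rp (p := p) hm i + rp hm i = 0 := by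
  unfold rp
  split_ifs
  · exact add_zero 0
  · exact dbl_T (isRp p m) _
  · exact dbl_T (isRp p m) _
  · exact dbl_T (isRp p m) _

lemma Tp_inj (hm : m ≠ 0) {x x' : ℚ_[p]} (hx : x = 0 ∨ x = m ∨ x = -3 * m)
    (hx' : x' = 0 ∨ x' = m ∨ x' = -3 * m) (h : Tp hm hx = Tp hm hx') : x = x' := by
  unfold Tp at h
  injection h

lemma Tp_ne (hm : m ≠ 0) {x : ℚ_[p]} (hx : x = 0 ∨ x = m ∨ x = -3 * m) :
    Tp hm hx ≠ 0 := Affine.Point.some_ne_zero _

lemma rp_inj (hm : m ≠ 0) : Function.Injective (rp (p := p) hm) := by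
  have hm' : (m : ℚ_[p]) ≠ 0 := by exact_mod_cast hm
  have q3 : (-3 * (m : ℚ_[p])) ≠ 0 := mul_ne_zero (by norm_num) hm'
  have q4 : (m : ℚ_[p]) ≠ -3 * m := by
    intro h
    apply hm'
    linear_combination (1 / 4 : ℚ_[p]) * h
  have r0 : rp (p := p) hm 0 = 0 := rfl
  have r1 : rp (p := p) hm 1 = Tp hm (Or.inl rfl) := rfl
  have r2 : rp (p := p) hm 2 = Tp hm (Or.inr (Or.inl rfl)) := rfl
  have r3 : rp (p := p) hm 3 = Tp hm (Or.inr (Or.inr rfl)) := rfl
  intro i j hij
  fin_cases i <;> fin_cases j <;> first | rfl | (exfalso; revert hij; simp only [Fin.zero_eta, Fin.mk_one, Fin.reduceFinMk, r0, r1, r2, r3]; intro hij)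
  · exact Tp_ne hm _ hij.symm
  · exact Tp_ne hm _ hij.symm
  · exact Tp_ne hm _ hij.symm
  · exact Tp_ne hm _ hij
  · exact hm' (Tp_inj hm _ _ hij).symm
  · exact q3 (Tp_inj hm _ _ hij).symm
  · exact Tp_ne hm _ hij
  · exact hm' (Tp_inj hm _ _ hij)
  · exact q4 (Tp_inj hm _ _ hij)
  · exact Tp_ne hm _ hij
  · exact q3 (Tp_inj hm _ _ hij)
  · exact q4 (Tp_inj hm _ _ hij).symm

/-- translation by a point of order two -/
lemma shift (hp2 : p ≠ 2) (hpm : (p : ℤ) ∣ m) {a b c : ℚ_[p]}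
    (h : IsR ((Em m).map (Int.castRingHom ℚ_[p])) a b c) (ha : ‖a‖ < 1) {x y : ℚ_[p]}
    (hP : ((Em m).map (Int.castRingHom ℚ_[p])).toAffine.Nonsingular x y)
    (hT : ((Em m).map (Int.castRingHom ℚ_[p])).toAffine.Nonsingular a 0) (hx : x ≠ a)
    (hv : ‖x - a‖ ≤ ‖(a - b) * (a - c)‖) :
    (Affine.Point.some x y hP + Affine.Point.some a 0 hT : PtP (Em m) p) ∈ E0 (Em m) p := by
  obtain ⟨X, Y, H, e, hX⟩ := add_T h hP hT hx
  rw [e, t_E0]
  intro x' y' h' he hsing
  injection he with e1 e2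
  subst e1
  subst e2
  rw [sing_ram hp2 hpm h'] at hsing
  have h1 : 1 ≤ ‖X - a‖ := by
    rw [hX, norm_div, one_le_div (norm_pos_iff.2 (sub_ne_zero.2 hx))]
    exact hv
  have h2 := norm_sub_lt hsing ha
  linarith

/-- **The Tamagawa numbers at the primes dividing `m`.** -/
theorem tam_ram (hp2 : p ≠ 2) (hp3 : p ≠ 3) (hm : Squarefree m) (hpm : (p : ℤ) ∣ m) :
    tam (Em m) p = 4 := by
  have hm0 : m ≠ 0 := hm.ne_zero
  have hm' : (m : ℚ_[p]) ≠ 0 := by exact_mod_cast hm0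
  have hm1 : ‖(m : ℚ_[p])‖ < 1 := (Padic.norm_intCast_lt_one_iff).2 hpm
  have hR := isRp p m
  have vm := val_one hpm hm
  have hpr : Prime (p : ℤ) := Nat.prime_iff_prime_int.1 hp.out
  have n2 : ¬ (p : ℤ) ∣ (2 : ℤ) := not_dvd_of_prime Nat.prime_two hp2
  have v4 : (4 * (m : ℚ_[p])).valuation = 1 := by
    have := val_mul_unit (p := p) (n := m) 4 (fun h => n2 (by
      have : (4 : ℤ) = 2 ^ 2 := by norm_num
      rw [this] at h
      exact hpr.dvd_of_dvd_pow h)) hm0
    push_cast at this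
    rw [this, vm]
  have v3 : (3 * (m : ℚ_[p])).valuation = 1 := by
    have := val_mul_unit (p := p) (n := m) 3 (not_dvd_of_prime Nat.prime_three hp3) hm0
    push_cast at this
    rw [this, vm]
  have n3 : (3 * (m : ℚ_[p])) ≠ 0 := mul_ne_zero (by norm_num) hm'
  have n4 : (4 * (m : ℚ_[p])) ≠ 0 := mul_ne_zero (by norm_num) hm'
  have r0 : rp (p := p) hm0 0 = 0 := rfl
  have r1 : rp (p := p) hm0 1 = Tp hm0 (Or.inl rfl) := rfl
  have r2 : rp (p := p) hm0 2 = Tp hm0 (Or.inr (Or.inl rfl)) := rfl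
  have r3 : rp (p := p) hm0 3 = Tp hm0 (Or.inr (Or.inr rfl)) := rfl
  have nrm : ∀ k : ℤ, ‖(k : ℚ_[p]) * m‖ < 1 := fun k => norm_mul_lt' (norm_int k) hm1
  refine index_of (E0 (Em m) p) (rp (p := p) hm0) (rp_dbl hm0) ?_ ?_
  · intro P
    rcases P with _ | ⟨x, y, h⟩
    · exact ⟨0, by rw [r0]; exact (E0 (Em m) p).zero_mem⟩
    by_cases hx1 : ‖x‖ < 1
    swap
    · refine ⟨0, ?_⟩
      rw [r0, add_zero, t_E0]
      intro x' y' h' he hsing
      injection he with e1 e2
      subst e1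
      subst e2
      exact hx1 ((sing_ram hp2 hpm h').1 hsing)
    have hE := eqnp h
    by_cases hy : y = 0
    · subst hy
      have h3 : x = 0 ∨ x = m ∨ x = -3 * m := by
        have h4 : x * (x - m) * (x + 3 * m) = 0 := by rw [← hE]; ring
        rcases mul_eq_zero.1 h4 with h5 | h5
        · rcases mul_eq_zero.1 h5 with h6 | h6
          · exact Or.inl h6
          · exact Or.inr (Or.inl (by linear_combination h6))
        · exact Or.inr (Or.inr (by linear_combination h5))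
      have hz : (Affine.Point.some x 0 h : PtP (Em m) p) + Affine.Point.some x 0 h = 0 := dbl_T hR h
      rcases h3 with rfl | rfl | rfl
      · exact ⟨1, by rw [r1]; unfold Tp; rw [hz]; exact (E0 (Em m) p).zero_mem⟩
      · exact ⟨2, by rw [r2]; unfold Tp; rw [hz]; exact (E0 (Em m) p).zero_mem⟩
      · exact ⟨3, by rw [r3]; unfold Tp; rw [hz]; exact (E0 (Em m) p).zero_mem⟩
    · have h0 : x * (x - m) * (x + 3 * m) ≠ 0 := by
        rw [← hE]; exact pow_ne_zero 2 hy
      have hu : x ≠ 0 := left_ne_zero_of_mul (left_ne_zero_of_mul h0)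
      have hv : x - m ≠ 0 := right_ne_zero_of_mul (left_ne_zero_of_mul h0)
      have hw : x + 3 * m ≠ 0 := right_ne_zero_of_mul h0
      have hs : IsSquare (x * (x - m) * (x + 3 * m)) := ⟨y, by rw [← hE, pow_two]⟩
      have hvx : 0 < x.valuation := (normlt_iff hu).1 hx1
      have E1 : x - (m : ℚ_[p]) - x = -m := by ring
      have E2 : x + 3 * (m : ℚ_[p]) - x = 3 * m := by ring
      have := val_ram hp2 (u := x) (v := x - (m : ℚ_[p])) (w := x + 3 * m) hu hv hw hs
        (by rw [E1]; exact neg_ne_zero.2 hm') (l := 1) (k := 1) (by rw [E1, val_neg, vm])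
        (by rw [E2, v3]) le_rfl (by decide)
      rcases this with c | c | c | c
      · exfalso
        omega
      · refine ⟨1, ?_⟩
        rw [r1]
        refine shift hp2 hpm hR (by rw [norm_zero]; exact one_pos) h _ hu ?_
        have e : (0 - (m : ℚ_[p])) * (0 - -3 * m) = -(m * (3 * m)) := by ring
        rw [e, sub_zero, norm_neg, norm_le_iff hu (mul_ne_zero hm' n3),
          Padic.valuation_mul hm' n3, v3, vm]
        omega
      · refine ⟨2, ?_⟩
        rw [r2]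
        refine shift hp2 hpm hR.rot hm1 h _ ?_ ?_
        · intro hx
          apply hv
          rw [hx]; ring
        · have e : ((m : ℚ_[p]) - -3 * m) * (m - 0) = (4 * m) * m := by ring
          rw [e, norm_le_iff hv (mul_ne_zero n4 hm'), Padic.valuation_mul n4 hm', v4, vm]
          omega
      · refine ⟨3, ?_⟩
        rw [r3]
        refine shift hp2 hpm hR.rot.rot ?_ h _ ?_ ?_
        · have := nrm (-3)
          push_cast at this
          exact this
        · intro hx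
          apply hw
          rw [hx]; ring
        · have e : (-3 * (m : ℚ_[p]) - 0) * (-3 * m - m) = (3 * m) * (4 * m) := by ring
          have e' : x - -3 * (m : ℚ_[p]) = x + 3 * m := by ring
          rw [e, e', norm_le_iff hw (mul_ne_zero n3 n4), Padic.valuation_mul n3 n4, v3, v4]
          omega
  · intro i j hij
    by_contra hne
    have h1 : rp (p := p) hm0 i + rp hm0 j ≠ 0 := by
      intro h
      apply hne
      apply rp_inj (p := p) hm0
      have h2 := rp_dbl (p := p) hm0 j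
      have h3 : rp (p := p) hm0 i = -rp hm0 j := eq_neg_of_add_eq_zero_left h
      have h4 : rp (p := p) hm0 j = -rp hm0 j := eq_neg_of_add_eq_zero_left h2
      rw [h3, ← h4]
    have h2 : (rp (p := p) hm0 i + rp hm0 j) + (rp hm0 i + rp hm0 j) = 0 := by
      have e1 := rp_dbl (p := p) hm0 i
      have e2 := rp_dbl (p := p) hm0 j
      have e : (rp (p := p) hm0 i + rp hm0 j) + (rp hm0 i + rp hm0 j) =
        (rp hm0 i + rp hm0 i) + (rp hm0 j + rp hm0 j) := by abel
      rw [e, e1, e2, add_zero]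
    obtain ⟨x, hx, hP, hxx⟩ := two_tor hR two_ne_zero h2 h1
    rw [hP] at hij
    have hij' := (t_E0 (W := Em m) (p := p) _).1 hij
    refine hij' x 0 hx rfl ?_
    rw [sing_ram hp2 hpm hx]
    rcases hxx with rfl | rfl | rfl
    · rw [norm_zero]; exact one_pos
    · exact hm1
    · have e := nrm (-3)
      push_cast at e
      exact e

/-- **A Tamagawa number two.** -/
theorem tam_eq_two {a b c : ℚ_[p]}
    (hR : IsR ((Em m).map (Int.castRingHom ℚ_[p])) a b c)
    (hT : ((Em m).map (Int.castRingHom ℚ_[p])).toAffine.Nonsingular a 0)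
    (hTs : SingRed (Em m) p a 0)
    (hs : ∀ x y, ((Em m).map (Int.castRingHom ℚ_[p])).toAffine.Nonsingular x y →
      SingRed (Em m) p x y → x ≠ a → ∀ X Y, SingRed (Em m) p X Y →
        X - a ≠ (a - b) * (a - c) / (x - a)) : tam (Em m) p = 2 := by
  set T : PtP (Em m) p := Affine.Point.some a 0 hT with hTd
  have dT : T + T = 0 := dbl_T hR hT
  have hTn : T ∉ E0 (Em m) p := by
    intro h
    rw [t_E0] at h
    exact h a 0 hT rfl hTs
  refine index_of (E0 (Em m) p) (fun i : Fin 2 => if i = 0 then 0 else T) ?_ ?_ ?_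
  · intro i
    by_cases hi : i = 0
    · simp [hi]
    · simp only [hi, if_false]
      exact dT
  · intro P
    rcases P with _ | ⟨x, y, h⟩
    · refine ⟨0, ?_⟩
      rw [if_pos rfl, add_zero]
      exact (E0 (Em m) p).zero_mem
    by_cases hx1 : SingRed (Em m) p x y
    swap
    · refine ⟨0, ?_⟩
      simp only [if_true, add_zero]
      rw [t_E0]
      intro x' y' h' he hsing
      injection he with e1 e2
      subst e1
      subst e2
      exact hx1 hsing
    refine ⟨1, ?_⟩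
    have e10 : (if (1 : Fin 2) = 0 then (0 : PtP (Em m) p) else T) = T := if_neg (by decide)
    rw [e10]
    by_cases hxa : x = a
    · subst hxa
      have hy : y = 0 := by
        have := (isR_eqn hR).1 h.1
        rw [sub_self, zero_mul, zero_mul] at this
        exact pow_eq_zero_iff two_ne_zero |>.1 this
      subst hy
      rw [dT]
      exact (E0 (Em m) p).zero_mem
    obtain ⟨X, Y, H, e, hX⟩ := add_T hR h hT hxa
    rw [hTd, e, t_E0]
    intro x' y' h' he hsing
    injection he with e1 e2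
    subst e1
    subst e2
    exact hs x y h hx1 hxa _ _ hsing hX
  · intro i j hij
    fin_cases i <;> fin_cases j
    · rfl
    · exfalso
      apply hTn
      simpa using hij
    · exfalso
      apply hTn
      simpa using hij
    · rfl

end tam

/-- **The Tamagawa number at `3`.** -/
theorem tam_three {m : ℤ} (h3 : ¬ (3 : ℤ) ∣ m) : tam (Em m) 3 = 2 := by
  have hm : m ≠ 0 := by rintro rfl; exact h3 (dvd_zero _)
  have hm' : (m : ℚ_[3]) ≠ 0 := by exact_mod_cast hm
  have n3 : ¬ ((3 : ℕ) : ℤ) ∣ m := by exact_mod_cast h3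
  have d3 : ‖(3 : ℚ_[3]) * m‖ < 1 := by
    have := norm_lt_of_dvd (p := 3) (k := 3 * m) ⟨m, by push_cast; ring⟩
    push_cast at this
    exact this
  have hsing : ∀ x y, ((Em m).map (Int.castRingHom ℚ_[3])).toAffine.Nonsingular x y →
      (SingRed (Em m) 3 x y ↔ ‖x‖ < 1) := by
    intro x y h
    rw [sing_iff (by norm_num) h]
    constructor
    · rintro ⟨-, ⟨c, -⟩ | ⟨c, -⟩ | ⟨c, d⟩⟩
      · exact c
      · exact c
      · exfalso
        have e := norm_sub_lt d c
        have e1 : x + 3 * (m : ℚ_[3]) - (x - m) = ((4 * m : ℤ) : ℚ_[3]) := by push_cast; ring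
        rw [e1] at e
        exact not_norm_lt (p := 3) (k := 4 * m) (by push_cast; omega) e
    · intro c
      exact ⟨c.le, Or.inr (Or.inl ⟨c, norm_add_lt c d3⟩)⟩
  have hT := nonsingp (p := 3) hm (Or.inl rfl)
  refine tam_eq_two (isRp 3 m) hT ((hsing 0 0 hT).2 (by rw [norm_zero]; exact one_pos)) ?_
  intro x y h hx hxa X Y hX he
  have hX1 := hX
  rw [hsing x y h] at hx
  have hvx : 0 < x.valuation := (normlt_iff hxa).1 hx
  -- the other abscissa
  have v1 : ((0 - (m : ℚ_[3])) * (0 - -3 * m)).valuation = 1 := by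
    have e : (0 - (m : ℚ_[3])) * (0 - -3 * m) = ((3 : ℕ) : ℚ_[3]) * ((-(m * m) : ℤ) : ℚ_[3]) := by
      push_cast; ring
    have h0 : ((-(m * m) : ℤ) : ℚ_[3]) ≠ 0 := by
      have : (-(m * m) : ℤ) ≠ 0 := neg_ne_zero.2 (mul_ne_zero hm hm)
      exact_mod_cast this
    rw [e, Padic.valuation_mul (by norm_num) h0, val_p, val_zero (p := 3)]
    · norm_num
    · rw [dvd_neg]
      intro h
      rcases (Nat.prime_iff_prime_int.1 Nat.prime_three).dvd_or_dvd h with h5 | h5 <;> exact n3 h5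
  have hne : (0 - (m : ℚ_[3])) * (0 - -3 * m) ≠ 0 := by
    intro h0
    rw [h0, Padic.valuation_zero] at v1
    norm_num at v1
  rw [sub_zero, sub_zero] at he
  have hX0 : X ≠ 0 := by
    rw [he]
    exact div_ne_zero hne hxa
  have hvX : X.valuation = 1 - x.valuation := by
    rw [he, div_eq_mul_inv, Padic.valuation_mul hne (inv_ne_zero hxa), Padic.valuation_inv, v1]
    ring
  rw [sing_def] at hX
  obtain ⟨c1, c2, c3, c4⟩ := hX
  have hX2 : ‖X‖ = 1 := by
    rcases lt_or_eq_of_le (show X.valuation ≤ 0 by omega) with h5 | h5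
    · have := (normle_iff hX0).1 c1
      omega
    · have h6 : ‖X‖ = ‖(1 : ℚ_[3])‖ := (norm_eq_iff hX0 one_ne_zero).2 (by
        rw [h5, Padic.valuation_one])
      rw [h6, norm_one]
  -- `X` is a unit: the derivative is `≡ X²·3 + 4 m X ≡ m X`
  have e5 : X * (X - m) + X * (X + 3 * m) + (X - m) * (X + 3 * m) =
      ((4 * m : ℤ) : ℚ_[3]) * X + (((3 : ℤ) : ℚ_[3]) * (X * X - m * m)) := by push_cast; ring
  rw [e5] at c3
  have h7 : ‖((3 : ℤ) : ℚ_[3]) * (X * X - m * m)‖ < 1 := by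
    refine norm_mul_lt (norm_lt_of_dvd (p := 3) (k := 3) ⟨1, by norm_num⟩) ?_
    rw [sub_eq_add_neg]
    refine (Padic.nonarchimedean _ _).trans (max_le ?_ ?_)
    · rw [norm_mul, hX2]; norm_num
    · rw [norm_neg, norm_mul]
      exact mul_le_one₀ (norm_int _) (norm_nonneg _) (norm_int _)
  have h8 : ‖((4 * m : ℤ) : ℚ_[3]) * X‖ < 1 := by
    have := norm_sub_lt c3 h7
    rwa [add_sub_cancel_right] at this
  rw [norm_mul, hX2, mul_one] at h8
  exact not_norm_lt (p := 3) (k := 4 * m) (by push_cast; omega) h8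

/-- **The Tamagawa number at `2`.** -/
theorem tam_two {m : ℤ} (hm8 : m % 8 = 5) : tam (Em m) 2 = 2 := by
  have hm : m ≠ 0 := by rintro rfl; simp at hm8
  have hm' : (m : ℚ_[2]) ≠ 0 := by exact_mod_cast hm
  have m2 : ¬ ((2 : ℕ) : ℤ) ∣ m := by push_cast; omega
  have hm1 : ‖(m : ℚ_[2])‖ = 1 := by
    refine le_antisymm (norm_int m) ?_
    rw [← not_lt]
    exact not_norm_lt m2
  have n2 : ‖(2 : ℚ_[2])‖ < 1 := by
    have := norm_lt_of_dvd (p := 2) (k := 2) ⟨1, by norm_num⟩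
    exact_mod_cast this
  -- singular reduction
  have sing_unit : ∀ x y : ℚ_[2], SingRed (Em m) 2 x y → ‖x‖ = 1 := by
    intro x y h
    rw [sing_def] at h
    obtain ⟨c1, c2, c3, c4⟩ := h
    by_contra hcon
    have c5 : ‖x‖ < 1 := lt_of_le_of_ne c1 hcon
    have e : x * (x - m) + x * (x + 3 * m) + (x - m) * (x + 3 * m) =
        x * (3 * x + 4 * m) + ((-3 * m ^ 2 : ℤ) : ℚ_[2]) := by push_cast; ring
    rw [e] at c3
    have c6 : ‖x * (3 * x + 4 * (m : ℚ_[2]))‖ < 1 := by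
      refine norm_mul_lt c5 ((Padic.nonarchimedean _ _).trans (max_le ?_ ?_))
      · have := norm_int (p := 2) 3
        push_cast at this
        rw [norm_mul]
        exact mul_le_one₀ this (norm_nonneg _) c1
      · have := norm_int (p := 2) (4 * m)
        push_cast at this
        exact this
    have c7 := norm_sub_lt c3 c6
    rw [add_sub_cancel_left] at c7
    refine not_norm_lt (p := 2) (k := -3 * m ^ 2) ?_ c7
    push_cast
    intro h
    rcases Int.prime_two.dvd_or_dvd h with h1 | h1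
    · norm_num at h1
    · exact m2 (by exact_mod_cast Int.prime_two.dvd_of_dvd_pow h1)
  have unit_sing : ∀ x y : ℚ_[2], ((Em m).map (Int.castRingHom ℚ_[2])).toAffine.Nonsingular x y →
      ‖x‖ = 1 → SingRed (Em m) 2 x y := by
    intro x y h hx
    have hE := eqnp h
    have a1 : ‖x - m‖ ≤ 1 := by
      rw [sub_eq_add_neg]
      exact (Padic.nonarchimedean _ _).trans (max_le hx.le (by rw [norm_neg]; exact hm1.le))
    have a2 : ‖x + 3 * m‖ ≤ 1 := by
      refine (Padic.nonarchimedean _ _).trans (max_le hx.le ?_)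
      have := norm_int (p := 2) (3 * m)
      push_cast at this
      exact this
    have hy : ‖y‖ ≤ 1 := by
      have h5 : ‖y ^ 2‖ ≤ 1 := by
        rw [hE, norm_mul, norm_mul, hx, one_mul]
        exact mul_le_one₀ a1 (norm_nonneg _) a2
      rw [norm_pow] at h5
      by_contra hcon
      push Not at hcon
      nlinarith
    rw [sing_def]
    refine ⟨hx.le, hy, ?_, norm_mul_lt n2 hy⟩
    -- two units of `ℚ₂` have a difference of norm less than one
    obtain ⟨s, hs⟩ : ∃ s : ℤ_[2], (s : ℚ_[2]) = x := ⟨⟨x, hx.le⟩, rfl⟩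
    have hs1 : ‖s‖ = 1 := by
      have : ‖s‖ = ‖(s : ℚ_[2])‖ := rfl
      rw [this, hs, hx]
    have e : x * (x - m) + x * (x + 3 * m) + (x - m) * (x + 3 * m) =
        ((3 * (s * s) + 4 * (m * s) - 3 * (m * m) : ℤ_[2]) : ℚ_[2]) := by
      rw [← hs]
      push_cast
      have d3 : ((3 : ℤ_[2]) : ℚ_[2]) = 3 := rfl
      have d4 : ((4 : ℤ_[2]) : ℚ_[2]) = 4 := rfl
      rw [d3, d4]
      ring
    rw [e]
    have h6 : ‖(3 * (s * s) + 4 * (m * s) - 3 * (m * m) : ℤ_[2])‖ < 1 := by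
      rw [← toZMod_zero_iff] 
      have t1 : PadicInt.toZMod s = 1 := by
        have h7 : IsUnit s := PadicInt.isUnit_iff.2 hs1
        have h8 := h7.map (PadicInt.toZMod (p := 2))
        have h9 : ∀ t : ZMod 2, IsUnit t → t = 1 := by decide
        exact h9 _ h8
      have t2 : PadicInt.toZMod (p := 2) (m : ℤ_[2]) = 1 := by
        rw [map_intCast]
        have : ((2 : ℕ) : ℤ) ∣ m - 1 := by push_cast; omega
        have h2 := (ZMod.intCast_zmod_eq_zero_iff_dvd (m - 1) 2).2 this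
        push_cast at h2
        exact sub_eq_zero.1 h2
      rw [map_sub, map_add, map_mul, map_mul, map_mul, map_mul, map_mul, map_mul, t1, t2,
        map_ofNat, map_ofNat]
      decide
    exact h6
  have hT := nonsingp (p := 2) hm (Or.inr (Or.inl rfl))
  refine tam_eq_two (isRp 2 m).rot hT (unit_sing _ _ hT hm1) ?_
  intro x y h hx hxa X Y hX he
  have hx1 := sing_unit x y hx
  have hX1 := sing_unit X Y hX
  have hx0 : x ≠ 0 := by rintro rfl; rw [norm_zero] at hx1; norm_num at hx1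
  have hX0 : X ≠ 0 := by rintro rfl; rw [norm_zero] at hX1; norm_num at hX1
  have hvx : x.valuation = 0 := by
    have h6 : ‖x‖ = ‖(1 : ℚ_[2])‖ := by rw [hx1, norm_one]
    rw [(norm_eq_iff hx0 one_ne_zero).1 h6, Padic.valuation_one]
  have hv : x - m ≠ 0 := sub_ne_zero.2 hxa
  have hE := eqnp h
  have v4 : (4 * (m : ℚ_[2])).valuation = 2 := by
    have v2 : ((2 : ℚ_[2])).valuation = 1 := by
      have : (2 : ℚ_[2]) = ((2 : ℕ) : ℚ_[2]) := by norm_num
      rw [this, Padic.valuation_p]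
    have : (4 : ℚ_[2]) = 2 ^ 2 := by norm_num
    rw [this, Padic.valuation_mul (by norm_num) hm', val_zero m2, Padic.valuation_pow, v2]
    norm_num
  have hval : 2 ≤ (x - (m : ℚ_[2])).valuation := by
    by_cases hw : x + 3 * m = 0
    · have e : x - (m : ℚ_[2]) = -(4 * m) := by linear_combination hw
      rw [e, val_neg, v4]
    · exact (two_all hm8 hx0 hv hw ⟨y, by rw [← hE, pow_two]⟩).2.2 hvx
  -- the abscissa of the sum
  have e1 : ((m : ℚ_[2]) - -3 * m) * (m - 0) = (4 * m) * m := by ring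
  rw [e1] at he
  have n4 : (4 * (m : ℚ_[2])) ≠ 0 := mul_ne_zero (by norm_num) hm'
  have hXm : X - m ≠ 0 := by
    rw [he]
    exact div_ne_zero (mul_ne_zero n4 hm') hv
  have hvX : (X - (m : ℚ_[2])).valuation = 2 - (x - (m : ℚ_[2])).valuation := by
    rw [he, div_eq_mul_inv, Padic.valuation_mul (mul_ne_zero n4 hm') (inv_ne_zero hv),
      Padic.valuation_inv, Padic.valuation_mul n4 hm', v4, val_zero m2]
    ring
  -- but the difference of two units has positive valuation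
  have hlt : ‖X - m‖ < 1 := by
    obtain ⟨s, hs⟩ : ∃ s : ℤ_[2], (s : ℚ_[2]) = X := ⟨⟨X, hX1.le⟩, rfl⟩
    have hs1 : ‖s‖ = 1 := by
      have : ‖s‖ = ‖(s : ℚ_[2])‖ := rfl
      rw [this, hs, hX1]
    have e : X - m = ((s - m : ℤ_[2]) : ℚ_[2]) := by
      rw [← hs]
      push_cast
      ring
    rw [e]
    have h6 : ‖(s - m : ℤ_[2])‖ < 1 := by
      rw [← toZMod_zero_iff]
      have t1 : PadicInt.toZMod s = 1 := by
        have h7 : IsUnit s := PadicInt.isUnit_iff.2 hs1
        have h8 := h7.map (PadicInt.toZMod (p := 2))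
        have h9 : ∀ t : ZMod 2, IsUnit t → t = 1 := by decide
        exact h9 _ h8
      have t2 : PadicInt.toZMod (p := 2) (m : ℤ_[2]) = 1 := by
        rw [map_intCast]
        have : ((2 : ℕ) : ℤ) ∣ m - 1 := by push_cast; omega
        have h2 := (ZMod.intCast_zmod_eq_zero_iff_dvd (m - 1) 2).2 this
        push_cast at h2
        exact sub_eq_zero.1 h2
      rw [map_sub, t1, t2, sub_self]
    exact h6
  have := (normlt_iff hXm).1 hlt
  omega

end Pool.Agent.N373.P24
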