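import Pool.Agent.N373.P24.Main
import Pool.Agent.N373.P24.Min
import Pool.Agent.N875.X15.Tors

/-!
# The torsion subgroup of `E_m(ℚ)`, `m < 0`, and the product of the Tamagawa numbers

`E_m : y² = x (x - m) (x + 3 m)`.
-/

set_option autoImplicit false
set_option linter.style.haveILetI false

namespace Pool.Agent.N373.P24

open WeierstrassCurve
open Pool.Agent.TH841.SH (IsR)
open Pool.Agent.N875.X15 (dbl_sq dbl_T two_tor sq_cancel card_four finite_tors)
open Pool.Agent.Y700 (tam)

open scoped Classical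

variable {m : ℤ}

/-- there is no rational point of order four -/
theorem no_four (hm : m < 0) (hns : ¬ IsSquare (-(m : ℚ))) (P : (EQm m).toAffine.Point)
    (h : (P + P) + (P + P) = 0) : P + P = 0 := by
  by_contra hne
  have hR := isR m
  obtain ⟨e, he, hP2, hee⟩ := two_tor hR two_ne_zero h hne
  have hmQ : (m : ℚ) < 0 := by exact_mod_cast hm
  rcases P with _ | ⟨x, y, hxy⟩
  · exact hne (add_zero _)
  have hy : y ≠ 0 := by
    rintro rfl
    exact hne (dbl_T hR hxy)
  have k1 := dbl_sq hR two_ne_zero hxy hy he hP2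
  have k2 := dbl_sq hR.rot two_ne_zero hxy hy he hP2
  have k3 := dbl_sq hR.rot.rot two_ne_zero hxy hy he hP2
  rcases hee with rfl | rfl | rfl
  · have : (((0 : ℤ)) : ℚ) - ((-3 * m : ℤ) : ℚ) = 3 * m := by push_cast; ring
    rw [this] at k3
    have := k3.nonneg
    linarith
  · have : ((m : ℤ) : ℚ) - ((0 : ℤ) : ℚ) = m := by push_cast; ring
    rw [this] at k1
    have := k1.nonneg
    linarith
  · apply hns
    have e1 : ((-3 * m : ℤ) : ℚ) - ((m : ℤ) : ℚ) = 2 * 2 * -(m : ℚ) := by push_cast; ring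
    rw [e1] at k2
    exact sq_cancel (by norm_num : (2 * 2 : ℚ) ≠ 0) ⟨2, rfl⟩ k2

/-- the points killed by two -/
theorem mem_T4 (hm : m ≠ 0) {P : (EQm m).toAffine.Point} (h : P + P = 0) : P ∈ T4 hm := by
  by_cases hP : P = 0
  · rw [hP]
    unfold T4
    exact Finset.mem_insert_self _ _
  · obtain ⟨x, hx, rfl, hxx⟩ := two_tor (isR m) two_ne_zero h hP
    unfold T4
    rw [Finset.mem_insert, Finset.mem_insert, Finset.mem_insert, Finset.mem_singleton]
    right
    rcases hxx with rfl | rfl | rfl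
    · left
      congr 1
    · right; left
      congr 1
    · right; right
      congr 1
      push_cast
      rfl

/-- **The order of the torsion subgroup.** -/
theorem tors_Em (hm : m < 0) (hns : ¬ IsSquare (-(m : ℚ))) :
    ∃ t : ℕ, Odd t ∧ Nat.card (AddCommGroup.torsion (EQm m).toAffine.Point) = 4 * t := by
  have : Finite (AddCommGroup.torsion (EQm m).toAffine.Point) := finite_tors (fg_E hm.ne)
  refine card_four ?_ ?_
  · have e : {x : AddCommGroup.torsion (EQm m).toAffine.Point // x + x = 0} ≃ (T4 hm.ne : Finset _) :=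
      { toFun := fun x => ⟨x.1.1, mem_T4 hm.ne (congrArg Subtype.val x.2)⟩
        invFun := fun x => ⟨⟨x.1, by
          have h1 : IsOfFinAddOrder x.1 := isOfFinAddOrder_iff_nsmul_eq_zero.2
            ⟨2, two_pos, by rw [two_nsmul]; exact T4_two hm.ne _ x.2⟩
          exact h1⟩, Subtype.ext (T4_two hm.ne _ x.2)⟩
        left_inv := fun x => rfl
        right_inv := fun x => rfl }
    rw [Nat.card_congr e, Nat.card_eq_fintype_card, Fintype.card_coe, T4_card]
  · rintro ⟨x, hx⟩ h
    apply Subtype.ext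
    exact no_four hm hns x (congrArg Subtype.val h)

/-- the order of the torsion subgroup of the twist by `-n` -/
theorem tors24 {n : ℕ} (_hn : Squarefree n) (h24 : n % 24 = 11) :
    ∃ t : ℕ, Odd t ∧ Nat.card (AddCommGroup.torsion (EQm (-(n : ℤ))).toAffine.Point) = 4 * t := by
  refine tors_Em (by omega) ?_
  have e : (-(((-(n : ℤ)) : ℤ) : ℚ)) = ((n : ℤ) : ℚ) := by push_cast; ring
  rw [e, Rat.isSquare_intCast_iff]
  rintro ⟨r, hr⟩
  have h7 : (n : ℤ) % 4 = 3 := by omega
  rw [hr] at h7
  have h8 : r % 4 = 0 ∨ r % 4 = 1 ∨ r % 4 = 2 ∨ r % 4 = 3 := by omega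
  rcases h8 with h8 | h8 | h8 | h8 <;> rw [Int.mul_emod, h8] at h7 <;> norm_num at h7

theorem pf_Δ {n : ℕ} (hn : n ≠ 0) :
    (Em (-(n : ℤ))).Δ.natAbs.primeFactors = insert 2 (insert 3 n.primeFactors) := by
  have e : (Em (-(n : ℤ))).Δ.natAbs = 2 ^ 8 * 3 ^ 2 * n ^ 6 := by
    rw [Em_Δ, Int.natAbs_mul, Int.natAbs_mul, Int.natAbs_pow, Int.natAbs_pow, Int.natAbs_pow,
      Int.natAbs_neg, Int.natAbs_natCast]
    rfl
  rw [e, Nat.primeFactors_mul (by norm_num) (pow_ne_zero _ hn),
    Nat.primeFactors_mul (by norm_num) (by norm_num), Nat.primeFactors_pow _ (by norm_num),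
    Nat.primeFactors_pow _ (by norm_num), Nat.primeFactors_pow _ (by norm_num),
    Nat.Prime.primeFactors Nat.prime_two, Nat.Prime.primeFactors Nat.prime_three]
  ext p
  simp

/-- **The product of the Tamagawa numbers** (`tamProd` of `Pool.Agent.Y700.Fin`, unfolded). -/
theorem tam_prod {n : ℕ} (hn : Squarefree n) (h24 : n % 24 = 11) :
    (∏ p ∈ (Em (-(n : ℤ))).Δ.natAbs.primeFactors, if h : p.Prime then
      (haveI := Fact.mk h; tam (Em (-(n : ℤ))) p) else 1) = 4 ^ (n.primeFactors.card + 1) := by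
  have hsm : Squarefree (-(n : ℤ)) := by
    intro x hx
    rw [dvd_neg] at hx
    exact Int.squarefree_natCast.2 hn x hx
  have h2 : ¬ 2 ∣ n := by omega
  have h3 : ¬ 3 ∣ n := by omega
  rw [pf_Δ hn.ne_zero, Finset.prod_insert, Finset.prod_insert]
  · have e2 : (if h : Nat.Prime 2 then (haveI := Fact.mk h; tam (Em (-(n : ℤ))) 2) else 1) = 2 := by
      rw [dif_pos Nat.prime_two]
      exact tam_two (by omega)
    have e3 : (if h : Nat.Prime 3 then (haveI := Fact.mk h; tam (Em (-(n : ℤ))) 3) else 1) = 2 := by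
      rw [dif_pos Nat.prime_three]
      exact tam_three (by omega)
    rw [e2, e3]
    have ep : ∀ p ∈ n.primeFactors,
        (if h : p.Prime then (haveI := Fact.mk h; tam (Em (-(n : ℤ))) p) else 1) = 4 := by
      intro p hp
      obtain ⟨h1, h4, -⟩ := Nat.mem_primeFactors.1 hp
      rw [dif_pos h1]
      haveI := Fact.mk h1
      exact tam_ram (by rintro rfl; exact h2 h4) (by rintro rfl; exact h3 h4) hsm
        (by rw [dvd_neg]; exact_mod_cast h4)
    rw [Finset.prod_congr rfl ep, Finset.prod_const, pow_succ]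
    ring
  · intro hh
    exact h3 (Nat.dvd_of_mem_primeFactors hh)
  · intro hh
    rcases Finset.mem_insert.1 hh with hh | hh
    · norm_num at hh
    · exact h2 (Nat.dvd_of_mem_primeFactors hh)

end Pool.Agent.N373.P24
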