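import Pool.Agent.N373.P24.Loc

/-!
# Local conditions at `2` for the curves `y² = x (x - m) (x + 3 m)`, `m ≡ 5 mod 8`
-/

set_option autoImplicit false

namespace Pool.Agent.N373.P24

open Pool.Agent.TH841.SH (LocC SelG)
open Pool.Agent.Y667.RP (mod_of_sq)
open Pool.Agent.N875.X15 (norm_lt_iff norm_le_iff norm_eq_iff close closeV val_add_ge even_val
  sq_cancel sq_trans loc_ram loc_unr close2 sq_of_mod8 unit_part unit_odd int_of_sq val_add_eq
  val_zero val_p val_one not_dvd_of_even val_mul_unit not_dvd_of_prime sq_mod3 drop to_coord)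

/-- elements of valuation at least three -/
lemma eight_part {x : ℚ_[2]} (hx : x ≠ 0) (h : 3 ≤ x.valuation) : ∃ s : ℤ_[2], x = 8 * s := by
  obtain ⟨s, -, hs⟩ := unit_part hx
  obtain ⟨k, hk⟩ := Int.eq_ofNat_of_zero_le (show 0 ≤ x.valuation - 3 by omega)
  refine ⟨2 ^ k * s, ?_⟩
  rw [hs]
  have h1 : x.valuation = 3 + (k : ℤ) := by omega
  rw [h1, zpow_add₀ two_ne_zero, zpow_natCast]
  push_cast
  have e3 : (2 : ℚ_[2]) ^ (3 : ℤ) = 8 := by norm_num
  have d2 : ((2 : ℤ_[2]) : ℚ_[2]) = 2 := rfl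
  rw [e3, d2]
  ring

/-- squares of odd integers of `ℤ₂` modulo `8` -/
lemma key_sq (t : ℤ_[2]) (h : ∃ z : ℚ_[2], z ^ 2 = t) : PadicInt.toZModPow 3 t ≠ 3 ∧
    PadicInt.toZModPow 3 t ≠ 5 ∧ PadicInt.toZModPow 3 t ≠ 7 := by
  obtain ⟨z, hz⟩ := h
  obtain ⟨r, hr⟩ := int_of_sq hz
  rw [← hr, map_pow]
  have : ∀ t : ZMod (2 ^ 3), t ^ 2 ≠ 3 ∧ t ^ 2 ≠ 5 ∧ t ^ 2 ≠ 7 := by decide
  exact this _

lemma m_mod8 {m : ℤ} (hm8 : m % 8 = 5) : PadicInt.toZModPow (p := 2) 3 (m : ℤ_[2]) = 5 := by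
  rw [map_intCast]
  have : ((8 : ℕ) : ℤ) ∣ m - 5 := by push_cast; omega
  have h2 := (ZMod.intCast_zmod_eq_zero_iff_dvd (m - 5) 8).2 this
  push_cast at h2
  exact sub_eq_zero.1 h2

/-- **The local condition at `2`.** -/
theorem two_all {m : ℤ} (hm8 : m % 8 = 5) {u : ℚ_[2]} (hu : u ≠ 0) (hv : u - m ≠ 0)
    (hw : u + 3 * m ≠ 0) (hs : IsSquare (u * (u - m) * (u + 3 * m))) :
    (IsSquare u ∨ IsSquare (5 * u)) ∧ Even (u - m).valuation ∧
      (u.valuation = 0 → 2 ≤ (u - m).valuation) := by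
  have hm : m ≠ 0 := by rintro rfl; simp at hm8
  have hm' : (m : ℚ_[2]) ≠ 0 := by exact_mod_cast hm
  have v2 : ((2 : ℚ_[2])).valuation = 1 := by
    have : (2 : ℚ_[2]) = ((2 : ℕ) : ℚ_[2]) := by norm_num
    rw [this, Padic.valuation_p]
  have vm : (m : ℚ_[2]).valuation = 0 := val_zero (by push_cast; omega)
  have vnm : (-(m : ℚ_[2])).valuation = 0 := by rw [val_neg, vm]
  have v3m : (3 * (m : ℚ_[2])).valuation = 0 := by
    have := val_zero (p := 2) (n := 3 * m) (by push_cast; omega)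
    push_cast at this
    exact this
  have v4m : (4 * (m : ℚ_[2])).valuation = 2 := by
    have : (4 : ℚ_[2]) = 2 ^ 2 := by norm_num
    rw [this, Padic.valuation_mul (by norm_num) hm', vm, Padic.valuation_pow, v2]
    norm_num
  have n3 : (3 * (m : ℚ_[2])) ≠ 0 := mul_ne_zero (by norm_num) hm'
  have n4 : (4 * (m : ℚ_[2])) ≠ 0 := mul_ne_zero (by norm_num) hm'
  have hnm : -(m : ℚ_[2]) ≠ 0 := neg_ne_zero.2 hm'
  have hsum : Even (u.valuation + (u - m).valuation + (u + 3 * m).valuation) := by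
    have := even_val (mul_ne_zero (mul_ne_zero hu hv) hw) hs
    rwa [Padic.valuation_mul (mul_ne_zero hu hv) hw, Padic.valuation_mul hu hv] at this
  have hsv : u - (m : ℚ_[2]) = u + (-(m : ℚ_[2])) := sub_eq_add_neg _ _
  have hmm := m_mod8 hm8
  have c2 : PadicInt.toZModPow (p := 2) 3 2 = 2 := map_ofNat (PadicInt.toZModPow (p := 2) 3) 2
  have c3 : PadicInt.toZModPow (p := 2) 3 3 = 3 := map_ofNat (PadicInt.toZModPow (p := 2) 3) 3
  have c4 : PadicInt.toZModPow (p := 2) 3 4 = 4 := map_ofNat (PadicInt.toZModPow (p := 2) 3) 4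
  have c5 : PadicInt.toZModPow (p := 2) 3 5 = 5 := map_ofNat (PadicInt.toZModPow (p := 2) 3) 5
  have c8 : PadicInt.toZModPow (p := 2) 3 8 = 8 := map_ofNat (PadicInt.toZModPow (p := 2) 3) 8
  have c12 : PadicInt.toZModPow (p := 2) 3 12 = 12 := map_ofNat (PadicInt.toZModPow (p := 2) 3) 12
  have d2 : ((2 : ℤ_[2]) : ℚ_[2]) = 2 := rfl
  have d3 : ((3 : ℤ_[2]) : ℚ_[2]) = 3 := rfl
  have d4 : ((4 : ℤ_[2]) : ℚ_[2]) = 4 := rfl
  have d5 : ((5 : ℤ_[2]) : ℚ_[2]) = 5 := rfl
  have d8 : ((8 : ℤ_[2]) : ℚ_[2]) = 8 := rfl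
  have d12 : ((12 : ℤ_[2]) : ℚ_[2]) = 12 := rfl
  obtain ⟨k, hk⟩ := hsum
  obtain ⟨s, hs1, hs2⟩ := unit_part hu
  have hodd := unit_odd hs1
  simp only [Set.mem_insert_iff, Set.mem_singleton_iff] at hodd
  rcases lt_trichotomy u.valuation 0 with c | c | c
  · -- negative valuation
    have e1 := val_add_eq hu hnm (by rwa [← hsv]) (by rw [vnm]; exact c)
    have e2 := val_add_eq hu n3 hw (by rw [v3m]; exact c)
    rw [← hsv] at e1
    have c' : u.valuation ≤ -3 ∨ u.valuation = -2 ∨ u.valuation = -1 := by omega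
    rcases c' with c' | c' | c'
    · obtain ⟨a1, a2⟩ := close2 hv hu (by rw [hsv, add_sub_cancel_left]; exact hnm) (by
        rw [hsv, add_sub_cancel_left, vnm]; omega)
      obtain ⟨b1, b2⟩ := close2 hw hu (by rw [add_sub_cancel_left]; exact n3) (by
        rw [add_sub_cancel_left, v3m]; omega)
      have h1 : IsSquare u := by
        have e : u * (u - m) * (u + 3 * m) * (u * u) = ((u - m) * u) * ((u + 3 * m) * u) * u := by
          ring
        have h2 : IsSquare (((u - m) * u) * ((u + 3 * m) * u) * u) := by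
          rw [← e]
          exact hs.mul (IsSquare.mul_self _)
        exact sq_cancel (mul_ne_zero (mul_ne_zero hv hu) (mul_ne_zero hw hu)) (a1.mul b1) h2
      exact ⟨Or.inl h1, by rw [e1]; exact even_val hu h1, fun h => by omega⟩
    · rw [c'] at hs2
      have e3 : (2 : ℚ_[2]) ^ (-2 : ℤ) = 1 / 4 := by norm_num
      rw [e3] at hs2
      obtain ⟨y, hy⟩ := hs
      obtain ⟨f1, f2, f3⟩ := key_sq (s * (s - 4 * m) * (s + 12 * m)) ⟨8 * y, by
        push_cast
        rw [d4, d12]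
        have : (8 * y) ^ 2 = 64 * (y * y) := by ring
        rw [this, ← hy, hs2]
        ring⟩
      rw [map_mul, map_mul, map_sub, map_add, map_mul, map_mul, c4, c12, hmm] at f1 f2 f3
      have f4 : PadicInt.toZModPow 3 s = 1 := by
        have : ∀ t : ZMod (2 ^ 3), (t = 1 ∨ t = 3 ∨ t = 5 ∨ t = 7) →
          t * (t - 4 * 5) * (t + 12 * 5) ≠ 3 → t * (t - 4 * 5) * (t + 12 * 5) ≠ 5 →
          t * (t - 4 * 5) * (t + 12 * 5) ≠ 7 → t = 1 := by decide
        exact this _ hodd f1 f2 f3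
      obtain ⟨z, hz⟩ := sq_of_mod8 _ f4
      refine ⟨Or.inl ⟨z / 2, ?_⟩, ?_, fun h => by omega⟩
      · rw [hs2, hz]
        ring
      · rw [e1, c']
        exact ⟨-1, by norm_num⟩
    · exfalso
      rw [e1, e2, c'] at hk
      omega
  · -- units
    rw [c, zpow_zero, one_mul] at hs2
    obtain ⟨t, ht1, ht2⟩ := unit_part hv
    have hodd' := unit_odd ht1
    simp only [Set.mem_insert_iff, Set.mem_singleton_iff] at hodd'
    have huv : u = (u - m) + m := by ring
    have c' : (u - (m : ℚ_[2])).valuation < 0 ∨ (u - (m : ℚ_[2])).valuation = 0 ∨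
        (u - (m : ℚ_[2])).valuation = 1 ∨ (u - (m : ℚ_[2])).valuation = 2 ∨
        3 ≤ (u - (m : ℚ_[2])).valuation := by omega
    rcases c' with c' | c' | c' | c' | c'
    · exfalso
      have := val_add_eq hv hm' (by rwa [sub_add_cancel]) (by rw [vm]; exact c')
      rw [sub_add_cancel] at this
      omega
    · exfalso
      rw [c', zpow_zero, one_mul] at ht2
      have h1 : s = t + m := by
        apply Subtype.ext
        push_cast
        rw [← hs2, ← ht2]
        ring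
      rw [h1, map_add, hmm] at hodd
      have : ∀ t : ZMod (2 ^ 3), (t = 1 ∨ t = 3 ∨ t = 5 ∨ t = 7) →
        ¬ (t + 5 = 1 ∨ t + 5 = 3 ∨ t + 5 = 5 ∨ t + 5 = 7) := by decide
      exact this _ hodd' hodd
    · exfalso
      rw [c', zpow_one] at ht2
      obtain ⟨y, hy⟩ := hs
      have hu' : u = m + 2 * t := by rw [← ht2]; ring
      obtain ⟨f1, f2, f3⟩ := key_sq ((m + 2 * t) * t * (t + 2 * m)) ⟨y / 2, by
        push_cast
        rw [d2]
        have : (y / 2) ^ 2 = (y * y) / 4 := by ring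
        rw [this, ← hy, ht2, hu']
        ring⟩
      rw [map_mul, map_mul, map_add, map_mul, map_add, map_mul, c2, hmm] at f2
      have : ∀ t : ZMod (2 ^ 3), (t = 1 ∨ t = 3 ∨ t = 5 ∨ t = 7) →
        (5 + 2 * t) * t * (t + 2 * 5) = 5 := by decide
      exact f2 (this _ hodd')
    · rw [c'] at ht2
      have e3 : (2 : ℚ_[2]) ^ (2 : ℤ) = 4 := by norm_num
      rw [e3] at ht2
      have hu' : u = ((m + 4 * t : ℤ_[2]) : ℚ_[2]) := by
        push_cast
        rw [d4, ← ht2]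
        ring
      refine ⟨Or.inl ?_, by rw [c']; exact ⟨1, by norm_num⟩, fun _ => by omega⟩
      rw [hu']
      apply sq_of_mod8
      rw [map_add, map_mul, c4, hmm]
      have : ∀ t : ZMod (2 ^ 3), (t = 1 ∨ t = 3 ∨ t = 5 ∨ t = 7) → 5 + 4 * t = 1 := by decide
      exact this _ hodd'
    · obtain ⟨r, hr⟩ := eight_part hv c'
      have e2 := val_add_eq n4 hv (by
        have : 4 * (m : ℚ_[2]) + (u - m) = u + 3 * m := by ring
        rwa [this]) (by rw [v4m]; omega)
      have e2' : 4 * (m : ℚ_[2]) + (u - m) = u + 3 * m := by ring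
      rw [e2', v4m] at e2
      rw [e2, c] at hk
      refine ⟨Or.inr ?_, ⟨k - 1, by omega⟩, fun _ => by omega⟩
      have hu' : 5 * u = ((5 * (m + 8 * r) : ℤ_[2]) : ℚ_[2]) := by
        push_cast
        rw [d5, d8, ← hr]
        ring
      rw [hu']
      apply sq_of_mod8
      rw [map_mul, map_add, map_mul, c5, c8, hmm]
      have : ∀ t : ZMod (2 ^ 3), 5 * (5 + 8 * t) = 1 := by decide
      exact this _
  · -- positive valuation
    have e1 := val_add_eq hnm hu (by rw [add_comm, ← hsv]; exact hv) (by rw [vnm]; exact c)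
    have e2 := val_add_eq n3 hu (by rw [add_comm]; exact hw) (by rw [v3m]; exact c)
    rw [add_comm, ← hsv, vnm] at e1
    rw [add_comm, v3m] at e2
    rw [e1, e2] at hk
    refine ⟨Or.inr ?_, by rw [e1]; exact Even.zero, fun h => by omega⟩
    have c' : u.valuation = 2 ∨ 3 ≤ u.valuation := by omega
    rcases c' with c' | c'
    · rw [c'] at hs2
      have e3 : (2 : ℚ_[2]) ^ (2 : ℤ) = 4 := by norm_num
      rw [e3] at hs2
      obtain ⟨y, hy⟩ := hs
      obtain ⟨f1, f2, f3⟩ := key_sq (s * (4 * s - m) * (4 * s + 3 * m)) ⟨y / 2, by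
        push_cast
        rw [d4, d3]
        have : (y / 2) ^ 2 = (y * y) / 4 := by ring
        rw [this, ← hy, hs2]
        ring⟩
      rw [map_mul, map_mul, map_sub, map_add, map_mul, map_mul, c4, c3, hmm] at f1 f2 f3
      have f4 : 5 * PadicInt.toZModPow 3 s = 1 := by
        have : ∀ t : ZMod (2 ^ 3), (t = 1 ∨ t = 3 ∨ t = 5 ∨ t = 7) →
          t * (4 * t - 5) * (4 * t + 3 * 5) ≠ 3 → t * (4 * t - 5) * (4 * t + 3 * 5) ≠ 5 →
          t * (4 * t - 5) * (4 * t + 3 * 5) ≠ 7 → 5 * t = 1 := by decide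
        exact this _ hodd f1 f2 f3
      obtain ⟨z, hz⟩ := sq_of_mod8 (5 * s) (by rw [map_mul, c5]; exact f4)
      push_cast at hz
      rw [d5] at hz
      refine ⟨2 * z, ?_⟩
      rw [hs2]
      linear_combination 4 * hz
    · obtain ⟨r, hr⟩ := eight_part hu c'
      have h1 : IsSquare (((5 * ((8 * r - m) * (8 * r + 3 * m)) : ℤ_[2])) : ℚ_[2]) := by
        apply sq_of_mod8
        rw [map_mul, map_mul, map_sub, map_add, map_mul, map_mul, c5, c8, c3, hmm]
        have : ∀ t : ZMod (2 ^ 3), 5 * ((8 * t - 5) * (8 * t + 3 * 5)) = 1 := by decide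
        exact this _
      have h2 : (((5 * ((8 * r - m) * (8 * r + 3 * m)) : ℤ_[2])) : ℚ_[2]) =
          5 * ((u - m) * (u + 3 * m)) := by
        push_cast
        rw [d5, d8, d3, hr]
      rw [h2] at h1
      have h3 := hs.mul h1
      have e : u * (u - m) * (u + 3 * m) * (5 * ((u - m) * (u + 3 * m))) =
        (((u - m) * (u + 3 * m)) * ((u - m) * (u + 3 * m))) * (5 * u) := by ring
      rw [e] at h3
      exact sq_cancel (mul_ne_zero (mul_ne_zero hv hw) (mul_ne_zero hv hw))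
        (IsSquare.mul_self _) h3

/-- squarefree integers in the local condition at `2` -/
lemma loc_two' {m d1 d2 : ℤ} (hm8 : m % 8 = 5) (hd1 : Squarefree d1) (hd2 : Squarefree d2)
    (h : LocC ℚ_[2] 0 m (-3 * m) d1 d2) : d1 % 4 = 1 ∧ ¬ (2 : ℤ) ∣ d2 := by
  obtain ⟨u, hu, hv, hw, hs, h1, h2⟩ := locC_iff h
  obtain ⟨a, b, -⟩ := two_all hm8 hu hv hw hs
  refine ⟨?_, by exact_mod_cast not_dvd_of_even hv b hd2 h2⟩
  rcases a with a | a
  · have hd : ¬ (2 : ℤ) ∣ d1 := by exact_mod_cast not_dvd_of_even hu (even_val hu a) hd1 h1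
    have := mod_of_sq hd (sq_cancel hu a h1)
    omega
  · have v5 : ((5 : ℤ) : ℚ_[2]).valuation = 0 := val_zero (by norm_num)
    have v5' : (5 : ℚ_[2]).valuation = 0 := by exact_mod_cast v5
    have h5 := even_val (mul_ne_zero (by norm_num) hu) a
    rw [Padic.valuation_mul (by norm_num) hu, v5', zero_add] at h5
    have hd : ¬ (2 : ℤ) ∣ d1 := by exact_mod_cast not_dvd_of_even hu h5 hd1 h1
    have h6 : IsSquare (((5 * d1 : ℤ)) : ℚ_[2]) := by
      push_cast
      rw [mul_comm] at a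
      rw [mul_comm] at h1
      have := sq_trans hu h1 a
      rwa [mul_comm] at this
    have := mod_of_sq (d := 5 * d1) (by omega) h6
    omega

end Pool.Agent.N373.P24
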